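import Pool.Agent.Lib.H87B.Defs

/-! # A1: components of graphs with degrees at most two -/

open Classical

namespace H87B

variable {V : Type*} [Fintype V] [DecidableEq V]

theorem a1_mem (R : SimpleGraph V) (x y : V) :
    y ∈ cmp R x ↔ y ∈ (R.connectedComponentMk x).supp := by
  unfold cmp
  rw [Finset.mem_filter, SimpleGraph.ConnectedComponent.mem_supp_iff,
    SimpleGraph.ConnectedComponent.eq]
  exact ⟨fun h => h.2.symm, fun h => ⟨Finset.mem_univ _, h.symm⟩⟩

/-- **A1 (M).** In a graph with all degrees at most `2` the deficiencies `2 - degree` of a component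
sum to at most `2`.  PROOF. The subgraph induced on the component is connected
(`SimpleGraph.ConnectedComponent.connected_toSimpleGraph`), so with `n` vertices it has at least
`n - 1` edges (`SimpleGraph.Connected.card_vert_le_card_edgeSet_add_one`), so the sum of its degrees
(= the degrees in `R`, a component is closed under adjacency) is at least `2 n - 2`
(`SimpleGraph.sum_degrees_eq_twice_card_edges`). -/
theorem cmp_deficit (R : SimpleGraph V) (hR : ∀ y, dg R y ≤ 2) (x : V) :
    ∑ y ∈ cmp R x, (2 - dg R y) ≤ 2 := by
  set C := R.connectedComponentMk x with hC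
  set H : SimpleGraph C.supp := R.induce C.supp with hH
  have hconn : H.Connected := C.connected_toSimpleGraph
  have h1 := hconn.card_vert_le_card_edgeSet_add_one
  have h2 := H.sum_degrees_eq_twice_card_edges
  have hdeg : ∀ v : C.supp, H.degree v = dg R v := by
    intro v
    unfold dg
    rw [← SimpleGraph.card_neighborFinset_eq_degree, ← Finset.card_map (Function.Embedding.subtype _)]
    congr 1
    ext w
    rw [Finset.mem_map, Finset.mem_filter]
    constructor
    · rintro ⟨⟨w', hw'⟩, h3, rfl⟩
      rw [SimpleGraph.mem_neighborFinset] at h3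
      exact ⟨Finset.mem_univ _, h3⟩
    · rintro ⟨-, h3⟩
      have hw : w ∈ C.supp := by
        have hv := v.2
        rw [SimpleGraph.ConnectedComponent.mem_supp_iff] at hv ⊢
        rw [← hv]
        exact (SimpleGraph.ConnectedComponent.sound h3.reachable).symm
      refine ⟨⟨w, hw⟩, ?_, rfl⟩
      rw [SimpleGraph.mem_neighborFinset]
      exact h3
  have h3 : ∑ y ∈ cmp R x, dg R y = 2 * H.edgeFinset.card := by
    rw [← h2, Finset.sum_subtype (cmp R x) (a1_mem R x)]
    exact Finset.sum_congr rfl fun v _ => (hdeg v).symm
  have h4 : (cmp R x).card = Nat.card C.supp := by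
    rw [Nat.card_eq_fintype_card, ← Finset.card_univ, Finset.card_eq_sum_ones,
      Finset.card_eq_sum_ones, Finset.sum_subtype (cmp R x) (a1_mem R x)]
  have h5 : Nat.card H.edgeSet = H.edgeFinset.card := by
    rw [Nat.card_eq_fintype_card, SimpleGraph.edgeFinset_card]
  have h6 : ∑ y ∈ cmp R x, (2 - dg R y) + ∑ y ∈ cmp R x, dg R y = 2 * (cmp R x).card := by
    rw [← Finset.sum_add_distrib, mul_comm, ← smul_eq_mul, ← Finset.sum_const]
    apply Finset.sum_congr rfl
    intro y _
    have := hR y
    omega
  rw [h3] at h6
  rw [h5] at h1
  omega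

/-- A sum over all vertices which is positive is positive over some component.  PROOF. Otherwise
sum over the components (`Finset.sum_fiberwise` with `R.connectedComponentMk`, or: the sets `cmp R x`
partition `V`). -/
theorem cmp_sum (R : SimpleGraph V) (f : V → ℤ) (h : 0 < ∑ u, f u) :
    ∃ x, 0 < ∑ u ∈ cmp R x, f u := by
  by_contra hcon
  push Not at hcon
  have hfin : Fintype R.ConnectedComponent := Fintype.ofFinite _
  rw [← Finset.sum_fiberwise (Finset.univ : Finset V) R.connectedComponentMk f] at h
  have h1 : ∑ C : R.ConnectedComponent, ∑ u ∈ Finset.univ.filter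
      (fun u => R.connectedComponentMk u = C), f u ≤ 0 := by
    apply Finset.sum_nonpos
    intro C _
    induction C using SimpleGraph.ConnectedComponent.ind with
    | h x =>
      have h2 : Finset.univ.filter (fun u => R.connectedComponentMk u =
          R.connectedComponentMk x) = cmp R x := by
        ext u
        rw [a1_mem, Finset.mem_filter, SimpleGraph.ConnectedComponent.mem_supp_iff]
        simp
      rw [h2]
      exact hcon x
  exact absurd h (not_lt.mpr h1)

end H87B
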