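import Pool.Agent.Lib.H87B.Defs

/-! # A2: Kempe exchanges in edge colourings -/

open Classical

namespace H87B

variable {V : Type*} [Fintype V] [DecidableEq V]

/-- **A2 (M).** The number of missing colours: `|M(u)| + deg u = |S|`.  PROOF. `w -> c u w` is injective
on the neighbours of `u` with values in `S`; `Ms` is the complement of its image in `S`. -/
theorem Ms_card {G : SimpleGraph V} {S : Finset ℕ} {c : V → V → ℕ} (hc : IsCol G S c) (u : V) :
    (Ms G S c u).card + dg G u = S.card := by
  have h1 : Ms G S c u = S \ ((Finset.univ.filter (fun w => G.Adj u w)).image (fun w => c u w)) := by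
    ext i
    simp only [Ms, Finset.mem_filter, Finset.mem_sdiff, Finset.mem_image, Finset.mem_univ,
      true_and, not_exists, not_and]
  have h2 : (Finset.univ.filter (fun w => G.Adj u w)).image (fun w => c u w) ⊆ S := by
    intro i hi
    obtain ⟨w, hw, rfl⟩ := Finset.mem_image.mp hi
    exact hc.mem u w (Finset.mem_filter.mp hw).2
  have h3 : ((Finset.univ.filter (fun w => G.Adj u w)).image (fun w => c u w)).card = dg G u := by
    unfold dg
    apply Finset.card_image_of_injOn
    intro v hv w hw hvw
    have hv' : G.Adj u v := (Finset.mem_filter.mp (Finset.mem_coe.mp hv)).2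
    have hw' : G.Adj u w := (Finset.mem_filter.mp (Finset.mem_coe.mp hw)).2
    by_contra hne
    exact hc.pr u v w hv' hw' hne hvw
  rw [h1, Finset.card_sdiff_of_subset h2, h3]
  have := Finset.card_le_card h2
  rw [h3] at this
  omega

/-- the degree in the graph of the two colours `i`, `j`.  PROOF. At most one edge at `u` has colour `i`
(none if `i` is missing), the same for `j`. -/
theorem twoCol_dg {G : SimpleGraph V} {S : Finset ℕ} {c : V → V → ℕ} (hc : IsCol G S c) (i j : ℕ)
    (u : V) :
    dg (twoCol G c i j) u + (if i ∈ Ms G S c u then 1 else 0) +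
      (if j ∈ Ms G S c u then 1 else 0) ≤ 2 := by
  have key : ∀ k, (Finset.univ.filter (fun w => G.Adj u w ∧ c u w = k)).card +
      (if k ∈ Ms G S c u then 1 else 0) ≤ 1 := by
    intro k
    split_ifs with hk
    · have h0 : Finset.univ.filter (fun w => G.Adj u w ∧ c u w = k) = ∅ := by
        rw [Finset.filter_eq_empty_iff]
        rintro w _ ⟨h1, h2⟩
        exact (Finset.mem_filter.mp hk).2 w h1 h2
      rw [h0]
      simp
    · rw [add_zero, Finset.card_le_one]
      intro v hv w hw
      obtain ⟨hv1, hv2⟩ := (Finset.mem_filter.mp hv).2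
      obtain ⟨hw1, hw2⟩ := (Finset.mem_filter.mp hw).2
      by_contra hne
      exact hc.pr u v w hv1 hw1 hne (hv2.trans hw2.symm)
  have h1 : dg (twoCol G c i j) u ≤ (Finset.univ.filter (fun w => G.Adj u w ∧ c u w = i)).card +
      (Finset.univ.filter (fun w => G.Adj u w ∧ c u w = j)).card := by
    unfold dg
    refine le_trans (Finset.card_le_card ?_) (Finset.card_union_le _ _)
    intro w hw
    obtain ⟨g1, g2, _⟩ := (Finset.mem_filter.mp hw).2
    rw [Finset.mem_union]
    rcases g2 with g2 | g2
    · exact Or.inl (Finset.mem_filter.mpr ⟨Finset.mem_univ _, g1, g2⟩)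
    · exact Or.inr (Finset.mem_filter.mpr ⟨Finset.mem_univ _, g1, g2⟩)
  have h2 := key i
  have h3 := key j
  omega

/-- Exchanging `i` and `j` on a set closed under the edges of these colours gives a proper colouring.
PROOF. An edge `x y` with `x` in `T`, `y` not in `T` has neither colour `i` nor `j` (its colour is the
same from both ends), so `Equiv.swap i j` does not change its colour; at each vertex an injective map
is applied to the colours. -/
theorem kswap_col {G : SimpleGraph V} {S : Finset ℕ} {c : V → V → ℕ} (hc : IsCol G S c) {i j : ℕ}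
    (hi : i ∈ S) (hj : j ∈ S) (T : Finset V)
    (hT : ∀ x ∈ T, ∀ y, (twoCol G c i j).Adj x y → y ∈ T) : IsCol G S (kswap c i j T) := by
  have hout : ∀ x y, G.Adj x y → x ∈ T → y ∉ T → Equiv.swap i j (c x y) = c x y := by
    intro x y hxy hx hy
    apply Equiv.swap_apply_of_ne_of_ne
    · intro hcon
      exact hy (hT x hx y ⟨hxy, Or.inl hcon, Or.inl (by rw [← hc.sy x y hxy]; exact hcon)⟩)
    · intro hcon
      exact hy (hT x hx y ⟨hxy, Or.inr hcon, Or.inr (by rw [← hc.sy x y hxy]; exact hcon)⟩)
  refine ⟨?_, ?_, ?_⟩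
  · intro x y hxy
    unfold kswap
    by_cases hx : x ∈ T
    · by_cases hy : y ∈ T
      · rw [if_pos hx, if_pos hy, hc.sy x y hxy]
      · rw [if_pos hx, if_neg hy, hout x y hxy hx hy, hc.sy x y hxy]
    · by_cases hy : y ∈ T
      · rw [if_neg hx, if_pos hy, hout y x hxy.symm hy hx, hc.sy x y hxy]
      · rw [if_neg hx, if_neg hy, hc.sy x y hxy]
  · intro x y hxy
    unfold kswap
    have hm := hc.mem x y hxy
    split_ifs
    · by_cases h1 : c x y = i
      · rw [h1, Equiv.swap_apply_left]; exact hj
      · by_cases h2 : c x y = j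
        · rw [h2, Equiv.swap_apply_right]; exact hi
        · rw [Equiv.swap_apply_of_ne_of_ne h1 h2]; exact hm
    · exact hm
  · intro x y z hxy hxz hyz
    unfold kswap
    split_ifs
    · intro hcon
      exact hc.pr x y z hxy hxz hyz ((Equiv.swap i j).injective hcon)
    · exact hc.pr x y z hxy hxz hyz

/-- the missing colours after the exchange. -/
theorem kswap_Ms {G : SimpleGraph V} {S : Finset ℕ} {c : V → V → ℕ} (hc : IsCol G S c) {i j : ℕ}
    (hi : i ∈ S) (hj : j ∈ S) (T : Finset V) (u : V) :
    Ms G S (kswap c i j T) u =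
      if u ∈ T then (Ms G S c u).image (Equiv.swap i j) else Ms G S c u := by
  have hS : ∀ k, Equiv.swap i j k ∈ S ↔ k ∈ S := by
    intro k
    by_cases h1 : k = i
    · rw [h1, Equiv.swap_apply_left]
      exact ⟨fun _ => hi, fun _ => hj⟩
    · by_cases h2 : k = j
      · rw [h2, Equiv.swap_apply_right]
        exact ⟨fun _ => hj, fun _ => hi⟩
      · rw [Equiv.swap_apply_of_ne_of_ne h1 h2]
  split_ifs with hu
  · ext k
    simp only [Ms, Finset.mem_filter, Finset.mem_image, kswap, if_pos hu]
    constructor
    · rintro ⟨h1, h2⟩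
      refine ⟨Equiv.swap i j k, ⟨(hS k).mpr h1, ?_⟩, Equiv.swap_apply_self i j k⟩
      intro w hw hcon
      exact h2 w hw (by rw [hcon, Equiv.swap_apply_self])
    · rintro ⟨l, ⟨h1, h2⟩, rfl⟩
      refine ⟨(hS l).mpr h1, ?_⟩
      intro w hw hcon
      exact h2 w hw ((Equiv.swap i j).injective hcon)
  · simp only [Ms, kswap, if_neg hu]

end H87B
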