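import Pool.Agent.Lib.H87B.A1
import Pool.Agent.Lib.H87B.A2

/-! # A3: balancing the missing colours -/

open Classical

namespace H87B

variable {V : Type*} [Fintype V] [DecidableEq V]

/-- **A3 (M).** If `|X_i| >= |X_j| + 3` one can exchange colours so that the sum of squares drops.
PROOF. Let `R = twoCol G c i j` (all degrees `<= 2` by `twoCol_dg`), `f u = [u in N, i in P u] -
[u in N, j in P u]`; `sum f > 0`, so by `cmp_sum` there is a component `T = cmp R x` with
`delta = a_i - a_j > 0`, `a_i = #{u in N cap T : i in P u}`. For `u` in `N`: `[i in P u] + [j in P u] <=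
2 - dg R u` (`P u` is contained in `Ms`, `twoCol_dg`), so `a_i + a_j <= 2` by `cmp_deficit`, `1 <= delta <= 2`.
Put `c' = kswap c i j T`, `P' u = (P u).image (Equiv.swap i j)` for `u` in `T`, `P' u = P u` otherwise
(T is closed: reachability). `kswap_col`, `kswap_Ms`. Then `xc N P' i = xc N P i - delta`,
`xc N P' j = xc N P j + delta`, the other `xc` are unchanged, and
`(x-delta)^2 + (y+delta)^2 < x^2 + y^2` as `delta <= 2 < 3 <= x - y`. -/
theorem rebal {G : SimpleGraph V} {S : Finset ℕ} {c : V → V → ℕ} (hc : IsCol G S c)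
    (N : Finset V) (P : V → Finset ℕ) (hP : ∀ u ∈ N, P u ⊆ Ms G S c u) {i j : ℕ}
    (hi : i ∈ S) (hj : j ∈ S) (h : xc N P j + 3 ≤ xc N P i) :
    ∃ (c' : V → V → ℕ) (P' : V → Finset ℕ), IsCol G S c' ∧ (∀ u ∈ N, P' u ⊆ Ms G S c' u) ∧
      (∀ u, (P' u).card = (P u).card) ∧
      ∑ k ∈ S, (xc N P' k) ^ 2 < ∑ k ∈ S, (xc N P k) ^ 2 := by
  have hij : i ≠ j := by
    rintro rfl
    omega
  obtain ⟨R, hR⟩ : ∃ R, R = twoCol G c i j := ⟨_, rfl⟩
  have hRd : ∀ u, dg R u + (if i ∈ Ms G S c u then 1 else 0) +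
      (if j ∈ Ms G S c u then 1 else 0) ≤ 2 := by
    intro u
    rw [hR]
    exact twoCol_dg hc i j u
  have hR2 : ∀ u, dg R u ≤ 2 := fun u => by have := hRd u; omega
  -- the function f
  obtain ⟨f, hf⟩ : ∃ f : V → ℤ, f = fun u => (if u ∈ N ∧ i ∈ P u then 1 else 0) -
      (if u ∈ N ∧ j ∈ P u then 1 else 0) := ⟨_, rfl⟩
  have hxc : ∀ k, (xc N P k : ℤ) = ∑ u, (if u ∈ N ∧ k ∈ P u then (1 : ℤ) else 0) := by
    intro k
    unfold xc
    rw [Finset.card_filter, Nat.cast_sum]
    rw [← Finset.sum_filter_add_sum_filter_not Finset.univ (fun u => u ∈ N)]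
    have e2 : ∑ u ∈ Finset.univ.filter (fun u => u ∉ N),
        (if u ∈ N ∧ k ∈ P u then (1 : ℤ) else 0) = 0 := by
      refine Finset.sum_eq_zero fun u hu => ?_
      rw [if_neg]
      intro hcon
      exact (Finset.mem_filter.mp hu).2 hcon.1
    rw [e2, add_zero]
    have e3 : Finset.univ.filter (fun u => u ∈ N) = N := by
      ext u; simp
    rw [e3]
    refine Finset.sum_congr rfl fun u hu => ?_
    simp [hu]
  have hsum : 0 < ∑ u, f u := by
    rw [hf, Finset.sum_sub_distrib, ← hxc, ← hxc]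
    omega
  obtain ⟨x, hx⟩ := cmp_sum R f hsum
  obtain ⟨T, hT⟩ : ∃ T, T = cmp R x := ⟨_, rfl⟩
  rw [← hT] at hx
  have hdef : ∑ y ∈ T, (2 - dg R y) ≤ 2 := by
    rw [hT]
    exact cmp_deficit R hR2 x
  have hTcl : ∀ y ∈ T, ∀ z, (twoCol G c i j).Adj y z → z ∈ T := by
    intro y hy z hyz
    rw [hT] at hy ⊢
    rw [← hR] at hyz
    exact Finset.mem_filter.mpr ⟨Finset.mem_univ _, (Finset.mem_filter.mp hy).2.trans hyz.reachable⟩
  -- a_i and a_j
  obtain ⟨a, ha⟩ : ∃ a : ℕ → ℕ, a = fun k => (T.filter (fun u => u ∈ N ∧ k ∈ P u)).card := ⟨_, rfl⟩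
  have hfa : ∑ u ∈ T, f u = (a i : ℤ) - a j := by
    rw [hf, Finset.sum_sub_distrib, ha]
    simp only [Finset.card_filter, Nat.cast_sum, Nat.cast_ite, Nat.cast_one, Nat.cast_zero]
  have haa : a i + a j ≤ 2 := by
    refine le_trans ?_ hdef
    rw [ha]
    simp only [Finset.card_filter]
    rw [← Finset.sum_add_distrib]
    refine Finset.sum_le_sum fun u _ => ?_
    have h1 := hRd u
    by_cases huN : u ∈ N
    · have h2 : (if u ∈ N ∧ i ∈ P u then 1 else 0) ≤ (if i ∈ Ms G S c u then 1 else 0) := by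
        by_cases h3 : i ∈ P u
        · rw [if_pos ⟨huN, h3⟩, if_pos (hP u huN h3)]
        · rw [if_neg (fun hc => h3 hc.2)]
          exact Nat.zero_le _
      have h2' : (if u ∈ N ∧ j ∈ P u then 1 else 0) ≤ (if j ∈ Ms G S c u then 1 else 0) := by
        by_cases h3 : j ∈ P u
        · rw [if_pos ⟨huN, h3⟩, if_pos (hP u huN h3)]
        · rw [if_neg (fun hc => h3 hc.2)]
          exact Nat.zero_le _
      omega
    · rw [if_neg (fun hc => huN hc.1), if_neg (fun hc => huN hc.1)]
      omega
  have hpos : a j < a i := by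
    rw [hfa] at hx
    omega
  -- the new state
  obtain ⟨P', hP'⟩ : ∃ P' : V → Finset ℕ, P' = fun u =>
    if u ∈ T then (P u).image (Equiv.swap i j) else P u := ⟨_, rfl⟩
  refine ⟨kswap c i j T, P', kswap_col hc hi hj T hTcl, ?_, ?_, ?_⟩
  · intro u hu
    rw [kswap_Ms hc hi hj T u, hP']
    by_cases huT : u ∈ T
    · simp only [if_pos huT]
      exact Finset.image_subset_image (hP u hu)
    · simp only [if_neg huT]
      exact hP u hu
  · intro u
    rw [hP']
    by_cases huT : u ∈ T
    · simp only [if_pos huT]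
      exact Finset.card_image_of_injective _ (Equiv.swap i j).injective
    · simp only [if_neg huT]
  · -- the new counts
    have hmem : ∀ u k, k ∈ P' u ↔ (if u ∈ T then Equiv.swap i j k ∈ P u else k ∈ P u) := by
      intro u k
      rw [hP']
      by_cases huT : u ∈ T
      · simp only [if_pos huT, Finset.mem_image]
        constructor
        · rintro ⟨l, hl, rfl⟩
          rwa [Equiv.swap_apply_self]
        · intro hk
          exact ⟨_, hk, Equiv.swap_apply_self i j k⟩
      · simp only [if_neg huT]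
    -- splitting the count
    have hsplit : ∀ (Q : V → Finset ℕ) k, xc N Q k =
        (T.filter (fun u => u ∈ N ∧ k ∈ Q u)).card +
          ((Finset.univ \ T).filter (fun u => u ∈ N ∧ k ∈ Q u)).card := by
      intro Q k
      unfold xc
      rw [← Finset.card_union_of_disjoint]
      · congr 1
        ext u
        simp only [Finset.mem_filter, Finset.mem_union, Finset.mem_sdiff, Finset.mem_univ, true_and]
        tauto
      · rw [Finset.disjoint_left]
        intro u h1 h2
        exact (Finset.mem_sdiff.mp (Finset.mem_filter.mp h2).1).2 (Finset.mem_filter.mp h1).1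
    have hout : ∀ k, ((Finset.univ \ T).filter (fun u => u ∈ N ∧ k ∈ P' u)).card =
        ((Finset.univ \ T).filter (fun u => u ∈ N ∧ k ∈ P u)).card := by
      intro k
      congr 1
      ext u
      simp only [Finset.mem_filter, Finset.mem_sdiff, Finset.mem_univ, true_and]
      constructor
      · rintro ⟨h1, h2, h3⟩
        rw [hmem, if_neg h1] at h3
        exact ⟨h1, h2, h3⟩
      · rintro ⟨h1, h2, h3⟩
        refine ⟨h1, h2, ?_⟩
        rw [hmem, if_neg h1]
        exact h3
    have hin : ∀ k, (T.filter (fun u => u ∈ N ∧ k ∈ P' u)).card = a (Equiv.swap i j k) := by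
      intro k
      rw [ha]
      simp only
      congr 1
      ext u
      simp only [Finset.mem_filter]
      constructor
      · rintro ⟨h1, h2, h3⟩
        rw [hmem, if_pos h1] at h3
        exact ⟨h1, h2, h3⟩
      · rintro ⟨h1, h2, h3⟩
        refine ⟨h1, h2, ?_⟩
        rw [hmem, if_pos h1]
        exact h3
    have hold : ∀ k, xc N P k = a k +
        ((Finset.univ \ T).filter (fun u => u ∈ N ∧ k ∈ P u)).card := by
      intro k
      rw [hsplit P k, ha]
    have hnew : ∀ k, xc N P' k = a (Equiv.swap i j k) +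
        ((Finset.univ \ T).filter (fun u => u ∈ N ∧ k ∈ P u)).card := by
      intro k
      rw [hsplit P' k, hin, hout]
    have hsame : ∀ k, k ≠ i → k ≠ j → xc N P' k = xc N P k := by
      intro k h1 h2
      rw [hnew, hold, Equiv.swap_apply_of_ne_of_ne h1 h2]
    have hi' : xc N P' i + a i = xc N P i + a j := by
      rw [hnew, hold, Equiv.swap_apply_left]
      omega
    have hj' : xc N P' j + a j = xc N P j + a i := by
      rw [hnew, hold, Equiv.swap_apply_right]
      omega
    have hsumS : ∀ g : ℕ → ℕ, ∑ k ∈ S, g k = ∑ k ∈ (S.erase i).erase j, g k + g j + g i := by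
      intro g
      rw [← Finset.sum_erase_add S g hi, ← Finset.sum_erase_add (S.erase i) g
        (Finset.mem_erase.mpr ⟨hij.symm, hj⟩)]
    rw [hsumS, hsumS]
    have hrest : ∑ k ∈ (S.erase i).erase j, (xc N P' k) ^ 2 =
        ∑ k ∈ (S.erase i).erase j, (xc N P k) ^ 2 := by
      refine Finset.sum_congr rfl fun k hk => ?_
      have h1 := Finset.mem_erase.mp hk
      have h2 := Finset.mem_erase.mp h1.2
      rw [hsame k h2.1 h1.1]
    rw [hrest]
    obtain ⟨δ, hδ⟩ : ∃ δ, a i = a j + δ := ⟨a i - a j, by omega⟩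
    have hδ1 : 1 ≤ δ := by omega
    have hδ2 : δ ≤ 2 := by omega
    have e1 : xc N P i = xc N P' i + δ := by omega
    have e2 : xc N P' j = xc N P j + δ := by omega
    obtain ⟨p, hp⟩ : ∃ p, xc N P' i = p := ⟨_, rfl⟩
    obtain ⟨r, hr⟩ : ∃ r, xc N P j = r := ⟨_, rfl⟩
    have h3 : r + 3 ≤ p + δ := by
      rw [e1, hp, hr] at h
      exact h
    rw [e1, e2, hp, hr]
    have h4 : r < p + δ - 2 := by omega
    rcases (by omega : δ = 1 ∨ δ = 2) with hd | hd
    · subst hd
      nlinarith
    · subst hd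
      nlinarith

end H87B
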