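import Pool.Agent.Lib.H87B.A3

/-! # A4: the balanced colouring, and a parity argument -/

open Classical

namespace H87B

variable {V : Type*} [Fintype V] [DecidableEq V]

/-- **A4 (S/M).** Balanced state.  PROOF. Strong induction on the sum of squares, `rebal`. -/
theorem balanced {G : SimpleGraph V} {S : Finset ℕ} {c : V → V → ℕ} (hc : IsCol G S c)
    (N : Finset V) (P : V → Finset ℕ) (hP : ∀ u ∈ N, P u ⊆ Ms G S c u) :
    ∃ (c' : V → V → ℕ) (P' : V → Finset ℕ), IsCol G S c' ∧ (∀ u ∈ N, P' u ⊆ Ms G S c' u) ∧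
      (∀ u, (P' u).card = (P u).card) ∧
      ∀ i ∈ S, ∀ j ∈ S, xc N P' i ≤ xc N P' j + 2 := by
  obtain ⟨n, hn⟩ : ∃ n, n = ∑ k ∈ S, (xc N P k) ^ 2 := ⟨_, rfl⟩
  induction n using Nat.strong_induction_on generalizing c P with
  | _ n ih =>
    by_cases hbal : ∀ i ∈ S, ∀ j ∈ S, xc N P i ≤ xc N P j + 2
    · exact ⟨c, P, hc, hP, fun _ => rfl, hbal⟩
    · push Not at hbal
      obtain ⟨i, hi, j, hj, hij⟩ := hbal
      obtain ⟨c', P', h1, h2, h3, h4⟩ := rebal hc N P hP hi hj (by omega)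
      rw [← hn] at h4
      obtain ⟨c2, P2, g1, g2, g3, g4⟩ := ih _ h4 h1 P' h2 rfl
      exact ⟨c2, P2, g1, g2, fun u => (g3 u).trans (h3 u), g4⟩

/-- double counting. -/
theorem xc_sum {G : SimpleGraph V} {S : Finset ℕ} {c : V → V → ℕ}
    (N : Finset V) (P : V → Finset ℕ) (hP : ∀ u ∈ N, P u ⊆ Ms G S c u) :
    ∑ i ∈ S, xc N P i = ∑ u ∈ N, (P u).card := by
  unfold xc
  have h1 : ∀ u ∈ N, (P u).card = ∑ i ∈ S, if i ∈ P u then 1 else 0 := by
    intro u hu
    rw [← Finset.card_filter]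
    congr 1
    ext i
    rw [Finset.mem_filter]
    constructor
    · intro hi
      exact ⟨(Finset.mem_filter.mp (hP u hu hi)).1, hi⟩
    · intro hi
      exact hi.2
  rw [Finset.sum_congr rfl h1, Finset.sum_comm]
  refine Finset.sum_congr rfl fun i _ => ?_
  rw [Finset.card_filter]

/-- numbers differing by at most `2` with odd sum less than twice their number: one of them is `1`.
PROOF. Otherwise, as the sum is `< 2 |S|`, some `x k <= 1`, so `x k = 0`, so all `x i <= 2`, so all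
`x i` are `0` or `2` and the sum is even. -/
theorem parity (S : Finset ℕ) (x : ℕ → ℕ) (d : ℕ) (hd : 1 ≤ d) (hS : d ≤ S.card)
    (h2 : ∀ i ∈ S, ∀ j ∈ S, x i ≤ x j + 2) (hsum : ∑ i ∈ S, x i + 1 = 2 * d) :
    ∃ k ∈ S, x k = 1 := by
  by_contra hcon
  push Not at hcon
  -- some value is zero
  obtain ⟨k, hk, hk0⟩ : ∃ k ∈ S, x k = 0 := by
    by_contra hcon2
    push Not at hcon2
    have h3 : ∀ i ∈ S, 2 ≤ x i := by
      intro i hi
      have h4 := hcon i hi
      have h5 := hcon2 i hi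
      omega
    have h6 := Finset.sum_le_sum h3
    rw [Finset.sum_const, smul_eq_mul] at h6
    omega
  have h7 : ∀ i ∈ S, Even (x i) := by
    intro i hi
    have h8 := h2 i hi k hk
    have h9 := hcon i hi
    have h10 : x i = 0 ∨ x i = 2 := by omega
    rcases h10 with h | h <;> rw [h]
    · exact ⟨0, rfl⟩
    · exact ⟨1, rfl⟩
  have h11 : Even (∑ i ∈ S, x i) := Finset.even_sum x h7
  obtain ⟨r, hr⟩ := h11
  omega

end H87B
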