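import Pool.Agent.Lib.H87B.A4

/-! # A5: inserting a vertex (Ehrenfeucht-Faber-Kierstead, Schrijver's proof) -/

open Classical

namespace H87B

variable {V : Type*} [Fintype V] [DecidableEq V]

theorem a5_dg_del {G : SimpleGraph V} {v u : V} (h : G.Adj v u) : dg (del G v) u + 1 = dg G u := by
  unfold dg
  have h1 : Finset.univ.filter (fun w => G.Adj u w) =
      insert v (Finset.univ.filter (fun w => (del G v).Adj u w)) := by
    ext w
    simp only [Finset.mem_filter, Finset.mem_univ, true_and, Finset.mem_insert]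
    constructor
    · intro hw
      by_cases hwv : w = v
      · exact Or.inl hwv
      · exact Or.inr ⟨hw, h.ne', hwv⟩
    · rintro (rfl | hw)
      · exact h.symm
      · exact hw.1
  have h2 : v ∉ Finset.univ.filter (fun w => (del G v).Adj u w) := by
    intro hcon
    exact (Finset.mem_filter.mp hcon).2.2.2 rfl
  rw [h1, Finset.card_insert_of_notMem h2]

theorem a5_zero {G : SimpleGraph V} {v : V} {S : Finset ℕ} (h : dg G v = 0)
    (hc : ECol (del G v) S) : ECol G S := by
  have h0 : ∀ w, ¬ G.Adj v w := by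
    intro w hw
    unfold dg at h
    rw [Finset.card_eq_zero] at h
    have : w ∈ Finset.univ.filter (fun w => G.Adj v w) :=
      Finset.mem_filter.mpr ⟨Finset.mem_univ _, hw⟩
    rw [h] at this
    exact absurd this (Finset.notMem_empty _)
  have h1 : ∀ x y, G.Adj x y → (del G v).Adj x y := by
    intro x y hxy
    refine ⟨hxy, ?_, ?_⟩
    · rintro rfl
      exact h0 _ hxy
    · rintro rfl
      exact h0 _ hxy.symm
  obtain ⟨c, hc⟩ := hc
  exact ⟨c, fun u w h => hc.sy u w (h1 _ _ h), fun u w h => hc.mem u w (h1 _ _ h),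
    fun u w z h h' => hc.pr u w z (h1 _ _ h) (h1 _ _ h')⟩

/-- **A5 (M/L).** If `G` minus the vertex `v` is edge colourable with the colours `S`, `deg v <= |S|`,
all neighbours of `v` have degree `<= |S|`, and all but one (`u0`) have degree `<= |S| - 1`, then `G` is
edge colourable with `S`.
PROOF. Induction on `|S|`, for all `G`. Let `N` be the set of neighbours of `v`. If `N` is empty
then `G = del G v`. Otherwise one may assume `u0 ∈ N` (if not, replace it by any element of `N`).
Take a colouring `c` of `del G v`. For `u ∈ N`: `|Ms (del G v) S c u| = |S| - (deg u - 1)` (`Ms_card`,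
`dg (del G v) u + 1 = dg G u`), so choose `P u ⊆ Ms` with `|P u| = 2` for `u ≠ u0` and `|P u0| = 1`.
`balanced`, `xc_sum` (the sum is `2 (|N|-1) + 1`) and `parity` (`d = |N| = dg G v`) give `c`, `P` and
`k ∈ S` with `xc N P k = 1`, say `u` is the only element of `N` with `k ∈ P u`.
Let `G'` be `G` without the edge `v u` and without the edges of `del G v` coloured `k`. Apply the
induction hypothesis to `G'`, `S.erase k`, `v`, `u0`: `dg G' v <= dg G v - 1`. Let `u'` be a neighbour
of `v` in `G'`, so `u' ≠ u`, `k ∉ P u'`. If `k ∉ Ms .. u'`, then an edge of `del G v` at `u'` is coloured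
`k` and has been removed: `dg G' u' <= dg G u' - 1`. If `k ∈ Ms .. u'`, then `|P u'| + 1 <= |Ms .. u'|
= |S| - (dg G u' - 1)`, so `dg G' u' <= dg G u' <= |S| - |P u'|`. In both cases `dg G' u' + 1 <= |S| - 1`
if `u' ≠ u0` and `dg G' u0 <= |S| - 1`. The colouring `c` restricted to `del G' v` uses `S.erase k`. From
a colouring `c2` of `G'` with `S.erase k` one gets one of `G`: `c2` on the edges of `G'`, `k` on the other
edges of `G` (they form a matching: `v u` and the edges coloured `k` by `c`; `u` misses `k`). -/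
theorem insert_vertex : ∀ (n : ℕ) (S : Finset ℕ), S.card = n → ∀ (G : SimpleGraph V) (v u0 : V),
    dg G v ≤ S.card → (∀ u, G.Adj v u → u ≠ u0 → dg G u + 1 ≤ S.card) →
    (∀ u, G.Adj v u → dg G u ≤ S.card) → ECol (del G v) S → ECol G S := by
  intro n
  induction n with
  | zero =>
    intro S hS G v u0 h1 _ _ hc
    exact a5_zero (by omega) hc
  | succ n ih =>
    intro S hS G v u0 hv hu hu' hcol
    by_cases hv0 : dg G v = 0
    · exact a5_zero hv0 hcol
    obtain ⟨N, hN⟩ : ∃ N : Finset V, N = Finset.univ.filter (fun w => G.Adj v w) := ⟨_, rfl⟩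
    have hNmem : ∀ u, u ∈ N ↔ G.Adj v u := by
      intro u
      rw [hN, Finset.mem_filter]
      simp
    have hNcard : N.card = dg G v := by rw [hN]; rfl
    have hNne : N.Nonempty := by
      rw [← Finset.card_pos, hNcard]
      omega
    obtain ⟨u1, hu1N, hu1⟩ : ∃ u1 ∈ N, ∀ u, G.Adj v u → u ≠ u1 → dg G u + 1 ≤ S.card := by
      by_cases h0 : u0 ∈ N
      · exact ⟨u0, h0, hu⟩
      · obtain ⟨u1, hu1⟩ := hNne
        refine ⟨u1, hu1, fun u hvu _ => hu u hvu ?_⟩
        rintro rfl
        exact h0 ((hNmem _).mpr hvu)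
    obtain ⟨c, hc⟩ := hcol
    have hM : ∀ (c : V → V → ℕ), IsCol (del G v) S c → ∀ u ∈ N,
        (Ms (del G v) S c u).card + dg G u = S.card + 1 := by
      intro c hc u hu
      have h1 := Ms_card hc u
      have h2 := a5_dg_del ((hNmem u).mp hu)
      omega
    have hPex : ∀ u, ∃ Q : Finset ℕ, u ∈ N → (Q ⊆ Ms (del G v) S c u ∧
        Q.card = if u = u1 then 1 else 2) := by
      intro u
      by_cases huN : u ∈ N
      · have h1 := hM c hc u huN
        have h2 : (if u = u1 then 1 else 2) ≤ (Ms (del G v) S c u).card := by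
          by_cases h3 : u = u1
          · rw [if_pos h3]
            have := hu' u ((hNmem u).mp huN)
            omega
          · rw [if_neg h3]
            have := hu1 u ((hNmem u).mp huN) h3
            omega
        obtain ⟨Q, hQ1, hQ2⟩ := Finset.exists_subset_card_eq h2
        exact ⟨Q, fun _ => ⟨hQ1, hQ2⟩⟩
      · exact ⟨∅, fun h => absurd h huN⟩
    choose P hP using hPex
    obtain ⟨c', P', hc', hP', hPcard, hbal⟩ := balanced hc N P (fun u hu => (hP u hu).1)
    have hcard' : ∀ u ∈ N, (P' u).card = if u = u1 then 1 else 2 := by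
      intro u hu
      rw [hPcard u, (hP u hu).2]
    have hsum : ∑ i ∈ S, xc N P' i + 1 = 2 * dg G v := by
      rw [xc_sum N P' hP', Finset.sum_congr rfl hcard', ← Finset.sum_erase_add N _ hu1N,
        if_pos rfl]
      have h3 : ∑ u ∈ N.erase u1, (if u = u1 then 1 else 2) = ∑ u ∈ N.erase u1, 2 :=
        Finset.sum_congr rfl fun u hu => if_neg (Finset.mem_erase.mp hu).1
      rw [h3, Finset.sum_const, Finset.card_erase_of_mem hu1N, smul_eq_mul, hNcard]
      have := Finset.card_pos.mpr hNne
      omega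
    obtain ⟨k, hkS, hk1⟩ := parity S (xc N P') (dg G v) (by omega) hv hbal hsum
    obtain ⟨u, huk⟩ := Finset.card_eq_one.mp hk1
    have huN : u ∈ N ∧ k ∈ P' u := by
      have : u ∈ N.filter (fun u => k ∈ P' u) := by rw [huk]; exact Finset.mem_singleton_self u
      exact Finset.mem_filter.mp this
    have huuniq : ∀ u' ∈ N, k ∈ P' u' → u' = u := by
      intro u' h1 h2
      have : u' ∈ N.filter (fun u => k ∈ P' u) := Finset.mem_filter.mpr ⟨h1, h2⟩
      rw [huk] at this
      exact Finset.mem_singleton.mp this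
    have hvu : G.Adj v u := (hNmem u).mp huN.1
    -- the smaller graph
    obtain ⟨G', hG'⟩ : ∃ G' : SimpleGraph V, ∀ x y, G'.Adj x y ↔ (G.Adj x y ∧
        ¬ ((x = v ∧ y = u) ∨ (x = u ∧ y = v)) ∧
        ¬ (x ≠ v ∧ y ≠ v ∧ (c' x y = k ∨ c' y x = k))) := by
      refine ⟨⟨fun x y => G.Adj x y ∧ ¬ ((x = v ∧ y = u) ∨ (x = u ∧ y = v)) ∧
        ¬ (x ≠ v ∧ y ≠ v ∧ (c' x y = k ∨ c' y x = k)), ⟨?_⟩, ⟨?_⟩⟩, fun x y => Iff.rfl⟩
      · rintro x y ⟨h1, h2, h3⟩
        exact ⟨h1.symm, fun h => h2 (h.elim (fun h => Or.inr ⟨h.2, h.1⟩) (fun h => Or.inl ⟨h.2, h.1⟩)),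
          fun h => h3 ⟨h.2.1, h.1, h.2.2.symm⟩⟩
      · rintro x ⟨h1, _⟩
        exact G.loopless.irrefl _ h1
    have hle : ∀ x, dg G' x ≤ dg G x := by
      intro x
      unfold dg
      apply Finset.card_le_card
      intro y hy
      exact Finset.mem_filter.mpr ⟨Finset.mem_univ _, ((hG' x y).mp (Finset.mem_filter.mp hy).2).1⟩
    have hcardS : (S.erase k).card = n := by
      rw [Finset.card_erase_of_mem hkS, hS]
      rfl
    have hbound : ∀ u', G'.Adj v u' → dg G' u' + (P' u').card ≤ S.card ∧ u' ∈ N := by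
      intro u' hadj
      obtain ⟨h1, h2, h3⟩ := (hG' v u').mp hadj
      have hu'N : u' ∈ N := (hNmem u').mpr h1
      have hu'u : u' ≠ u := by
        intro hcon
        exact h2 (Or.inl ⟨rfl, hcon⟩)
      have hkP : k ∉ P' u' := fun hcon => hu'u (huuniq u' hu'N hcon)
      have h4 := hM c' hc' u' hu'N
      have h5 := Finset.card_le_card (hP' u' hu'N)
      refine ⟨?_, hu'N⟩
      by_cases hkM : k ∈ Ms (del G v) S c' u'
      · have h6 : P' u' ⊆ (Ms (del G v) S c' u').erase k := by
          intro i hi
          refine Finset.mem_erase.mpr ⟨?_, hP' u' hu'N hi⟩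
          rintro rfl
          exact hkP hi
        have h7 := Finset.card_le_card h6
        rw [Finset.card_erase_of_mem hkM] at h7
        have h8 : 0 < (Ms (del G v) S c' u').card := Finset.card_pos.mpr ⟨_, hkM⟩
        have h9 := hle u'
        omega
      · have h6 : ∃ w, (del G v).Adj u' w ∧ c' u' w = k := by
          by_contra hcon
          push Not at hcon
          exact hkM (Finset.mem_filter.mpr ⟨hkS, hcon⟩)
        obtain ⟨w, hw, hwk⟩ := h6
        have h7 : dg G' u' + 1 ≤ dg G u' := by
          unfold dg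
          have h8 : Finset.univ.filter (fun z => G'.Adj u' z) ⊆
              (Finset.univ.filter (fun z => G.Adj u' z)).erase w := by
            intro z hz
            have hz' := (hG' u' z).mp (Finset.mem_filter.mp hz).2
            refine Finset.mem_erase.mpr ⟨?_, Finset.mem_filter.mpr ⟨Finset.mem_univ _, hz'.1⟩⟩
            rintro rfl
            exact hz'.2.2 ⟨hw.2.1, hw.2.2, Or.inl hwk⟩
          have h9 := Finset.card_le_card h8
          have hmem : w ∈ Finset.univ.filter (fun z => G.Adj u' z) :=
            Finset.mem_filter.mpr ⟨Finset.mem_univ _, hw.1⟩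
          rw [Finset.card_erase_of_mem hmem] at h9
          have h10 := Finset.card_pos.mpr ⟨_, hmem⟩
          omega
        omega
    have hnew := ih (S.erase k) hcardS G' v u1 (by
        rw [hcardS]
        have h8 : Finset.univ.filter (fun z => G'.Adj v z) ⊆ N.erase u := by
          intro z hz
          have hz' := (hG' v z).mp (Finset.mem_filter.mp hz).2
          refine Finset.mem_erase.mpr ⟨?_, (hNmem z).mpr hz'.1⟩
          rintro rfl
          exact hz'.2.1 (Or.inl ⟨rfl, rfl⟩)
        have h9 := Finset.card_le_card h8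
        rw [Finset.card_erase_of_mem huN.1, hNcard] at h9
        unfold dg at h9 hv ⊢
        omega) (by
        intro u' hadj hne
        obtain ⟨h1, h2⟩ := hbound u' hadj
        rw [hcard' u' h2, if_neg hne] at h1
        omega) (by
        intro u' hadj
        obtain ⟨h1, h2⟩ := hbound u' hadj
        rw [hcard' u' h2] at h1
        split_ifs at h1 <;> omega) (by
        refine ⟨c', ?_, ?_, ?_⟩
        · intro x y hxy
          exact hc'.sy x y ⟨((hG' x y).mp hxy.1).1, hxy.2⟩
        · intro x y hxy
          have h1 := (hG' x y).mp hxy.1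
          refine Finset.mem_erase.mpr ⟨?_, hc'.mem x y ⟨h1.1, hxy.2⟩⟩
          intro hcon
          exact h1.2.2 ⟨hxy.2.1, hxy.2.2, Or.inl hcon⟩
        · intro x y z hxy hxz hyz
          exact hc'.pr x y z ⟨((hG' x y).mp hxy.1).1, hxy.2⟩ ⟨((hG' x z).mp hxz.1).1, hxz.2⟩ hyz)
    obtain ⟨c2, hc2⟩ := hnew
    -- edges of G which are not in G'
    have hout : ∀ x y, G.Adj x y → ¬ G'.Adj x y →
        (x = v ∧ y = u) ∨ (x = u ∧ y = v) ∨ (x ≠ v ∧ y ≠ v ∧ c' x y = k) := by
      intro x y hxy hn
      by_contra hcon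
      push Not at hcon
      obtain ⟨h1, h2, h3⟩ := hcon
      apply hn
      rw [hG']
      refine ⟨hxy, ?_, ?_⟩
      · rintro (⟨h4, h5⟩ | ⟨h4, h5⟩)
        · exact h1 h4 h5
        · exact h2 h4 h5
      · rintro ⟨h4, h5, h6⟩
        have h7 := h3 h4 h5
        have h8 := hc'.sy x y ⟨hxy, h4, h5⟩
        rcases h6 with h6 | h6
        · exact h7 h6
        · exact h7 (h8.trans h6)
    refine ⟨fun x y => if G'.Adj x y then c2 x y else k, ?_, ?_, ?_⟩
    · intro x y hxy
      by_cases h1 : G'.Adj x y
      · simp only [if_pos h1, if_pos h1.symm]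
        exact hc2.sy x y h1
      · have h2 : ¬ G'.Adj y x := fun h => h1 h.symm
        simp only [if_neg h1, if_neg h2]
    · intro x y hxy
      by_cases h1 : G'.Adj x y
      · simp only [if_pos h1]
        exact Finset.mem_of_mem_erase (hc2.mem x y h1)
      · simp only [if_neg h1]
        exact hkS
    · intro x y z hxy hxz hyz
      by_cases h1 : G'.Adj x y
      · by_cases h2 : G'.Adj x z
        · simp only [if_pos h1, if_pos h2]
          exact hc2.pr x y z h1 h2 hyz
        · simp only [if_pos h1, if_neg h2]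
          exact (Finset.mem_erase.mp (hc2.mem x y h1)).1
      · by_cases h2 : G'.Adj x z
        · simp only [if_neg h1, if_pos h2]
          exact (Finset.mem_erase.mp (hc2.mem x z h2)).1.symm
        · exfalso
          have hku : ∀ w, (del G v).Adj u w → c' u w ≠ k :=
            (Finset.mem_filter.mp (hP' u huN.1 huN.2)).2
          rcases hout x y hxy h1 with ⟨a1, a2⟩ | ⟨a1, a2⟩ | ⟨a1, a2, a3⟩ <;>
            rcases hout x z hxz h2 with ⟨b1, b2⟩ | ⟨b1, b2⟩ | ⟨b1, b2, b3⟩
          · exact hyz (a2.trans b2.symm)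
          · exact hvu.ne (a1.symm.trans b1)
          · exact b1 a1
          · exact hvu.ne (b1.symm.trans a1)
          · exact hyz (a2.trans b2.symm)
          · subst a1
            exact hku z ⟨hxz, b1, b2⟩ b3
          · exact a1 b1
          · subst b1
            exact hku y ⟨hxy, a1, a2⟩ a3
          · exact hc'.pr x y z ⟨hxy, a1, a2⟩ ⟨hxz, b1, b2⟩ hyz (a3.trans b3.symm)

end H87B
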