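import Pool.Agent.Lib.H87B.A5

/-! # A6: Vizing-Fournier for a core of degree at most one -/

open Classical

namespace H87B

variable {V : Type*} [Fintype V] [DecidableEq V]

/-- **A6 (M).** If all degrees are `<= |S|` and every vertex of degree `|S|` has at most one neighbour
of degree `|S|`, then `G` is edge colourable with the colours `S`.
PROOF. Induction on the number of edges (or on `∑ x, dg G x`). If there is no edge: trivial. Otherwise
choose a vertex `v` with a neighbour: one of degree `|S|` if there is one (`|S| >= 1` since there is an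
edge), any non isolated vertex otherwise. In both cases `v` has at most one neighbour `u0` of degree
`|S|` (if there is none take `u0 = v`). `del G v` satisfies the hypotheses: degrees do not increase, and a
vertex of degree `|S|` in `del G v` has degree `|S|` in `G`. Apply `insert_vertex`. -/
theorem vizing_fournier (S : Finset ℕ) (G : SimpleGraph V) (h1 : ∀ x, dg G x ≤ S.card)
    (h2 : ∀ x y z, G.Adj x y → G.Adj x z → dg G x = S.card → dg G y = S.card →
      dg G z = S.card → y = z) : ECol G S := by
  obtain ⟨n, hn⟩ : ∃ n, n = ∑ x, dg G x := ⟨_, rfl⟩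
  induction n using Nat.strong_induction_on generalizing G with
  | _ n ih =>
    by_cases hE : ∃ x y, G.Adj x y
    · -- choice of `v`
      obtain ⟨v, ⟨w, hvw⟩, huni⟩ : ∃ v, (∃ w, G.Adj v w) ∧ ∀ y z, G.Adj v y → G.Adj v z →
          dg G y = S.card → dg G z = S.card → y = z := by
        by_cases h : ∃ v, (∃ w, G.Adj v w) ∧ dg G v = S.card
        · obtain ⟨v, hv, hvS⟩ := h
          exact ⟨v, hv, fun y z hy hz h3 h4 => h2 v y z hy hz hvS h3 h4⟩
        · push Not at h
          obtain ⟨x, y, hxy⟩ := hE
          exact ⟨x, ⟨y, hxy⟩, fun y z hy hz h3 h4 => absurd h3 (h y ⟨x, hy.symm⟩)⟩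
      obtain ⟨u0, hu0⟩ : ∃ u0, ∀ u, G.Adj v u → u ≠ u0 → dg G u ≠ S.card := by
        by_cases h : ∃ y, G.Adj v y ∧ dg G y = S.card
        · obtain ⟨y, hy, hyS⟩ := h
          exact ⟨y, fun u hu hne hcon => hne (huni u y hu hy hcon hyS)⟩
        · push Not at h
          exact ⟨v, fun u hu _ => h u hu⟩
      have hle : ∀ x, dg (del G v) x ≤ dg G x := by
        intro x
        unfold dg
        apply Finset.card_le_card
        intro y hy
        exact Finset.mem_filter.mpr ⟨Finset.mem_univ _, (Finset.mem_filter.mp hy).2.1⟩
      have hlt : ∑ x, dg (del G v) x < ∑ x, dg G x := by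
        apply Finset.sum_lt_sum (fun x _ => hle x)
        refine ⟨v, Finset.mem_univ _, ?_⟩
        have h0 : dg (del G v) v = 0 := by
          unfold dg
          rw [Finset.card_eq_zero, Finset.filter_eq_empty_iff]
          intro y _ hy
          exact hy.2.1 rfl
        rw [h0]
        unfold dg
        exact Finset.card_pos.mpr ⟨w, Finset.mem_filter.mpr ⟨Finset.mem_univ _, hvw⟩⟩
      have hdel : ECol (del G v) S := by
        refine ih _ (by rw [hn]; exact hlt) (del G v) (fun x => (hle x).trans (h1 x)) ?_ rfl
        intro x y z hxy hxz hx hy hz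
        have g : ∀ t, dg (del G v) t = S.card → dg G t = S.card := by
          intro t ht
          have a1 := hle t
          have a2 := h1 t
          omega
        exact h2 x y z hxy.1 hxz.1 (g x hx) (g y hy) (g z hz)
      refine insert_vertex S.card S rfl G v u0 (h1 v) ?_ (fun u _ => h1 u) hdel
      intro u hu hne
      have a1 := h1 u
      have a2 := hu0 u hu hne
      omega
    · push Not at hE
      exact ⟨fun _ _ => 0, fun u v h => absurd h (hE u v), fun u v h => absurd h (hE u v),
        fun u v w h => absurd h (hE u v)⟩

end H87B
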