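import Pool.Agent.Lib.H87B.Defs

/-! # B1: operations on pairs of matchings -/

open Classical

namespace H87B

variable {V : Type*} [Fintype V] [DecidableEq V] {G : SimpleGraph V} {Fb : Bool → V → Prop}
  {m : Bool → V → V}

theorem b1_sym (h : Val G Fb m) {i : Bool} {x y : V} (hx : m i x = y) : m i y = x := by
  rw [← hx, h.inv]

theorem b1_add_i {i : Bool} {u v x : V} :
    add m i u v i x = if x = u then v else if x = v then u else m i x := by
  simp [add]

theorem b1_add_ne {i t : Bool} {u v x : V} (ht : t ≠ i) : add m i u v t x = m t x := by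
  simp [add, ht]

theorem b1_not {i t : Bool} (ht : t ≠ i) : t = !i := by
  cases i <;> cases t <;> simp_all

theorem b1_dF (m : Bool → V → V) (i : Bool) (x : V) :
    dF m x = (if m i x ≠ x then 1 else 0) + (if m (!i) x ≠ x then 1 else 0) := by
  unfold dF
  cases i
  · rw [add_comm]; rfl
  · rfl

theorem b1_disj (h : Val G Fb m) {i : Bool} {x : V} (hx : m i x = m (!i) x) : m i x = x := by
  cases i
  · rw [hx]; exact h.disj x hx.symm
  · exact h.disj x hx

/-- **B1 (M, nine small facts).** -/
theorem val_add (h : Val G Fb m) {i : Bool} {u v : V} (ha : G.Adj u v) (hu : ¬ Fb i u)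
    (hv : ¬ Fb i v) (mu : m i u = u) (mv : m i v = v) (hd : m (!i) u ≠ v) :
    Val G Fb (add m i u v) := by
  have huv : u ≠ v := ha.ne
  have hnu : ∀ x, x ≠ u → m i x ≠ u := by
    intro x hx hcon
    exact hx ((b1_sym h hcon).symm.trans mu)
  have hnv : ∀ x, x ≠ v → m i x ≠ v := by
    intro x hx hcon
    exact hx ((b1_sym h hcon).symm.trans mv)
  have hd' : m (!i) v ≠ u := by
    intro hcon
    exact hd (b1_sym h hcon)
  have key : ∀ x, add m i u v i x = m (!i) x → add m i u v i x = x := by
    intro x hx
    rw [b1_add_i] at hx ⊢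
    by_cases hxu : x = u
    · subst hxu
      rw [if_pos rfl] at hx
      exact absurd hx.symm hd
    · rw [if_neg hxu] at hx ⊢
      by_cases hxv : x = v
      · subst hxv
        rw [if_pos rfl] at hx
        exact absurd hx.symm hd'
      · rw [if_neg hxv] at hx ⊢
        exact b1_disj h hx
  refine ⟨?_, ?_, ?_, ?_⟩
  · intro t x
    by_cases ht : t = i
    · subst ht
      rw [b1_add_i (x := x)]
      by_cases hxu : x = u
      · subst hxu
        rw [if_pos rfl, b1_add_i, if_neg huv.symm, if_pos rfl]
      · rw [if_neg hxu]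
        by_cases hxv : x = v
        · subst hxv
          rw [if_pos rfl, b1_add_i, if_pos rfl]
        · rw [if_neg hxv, b1_add_i, if_neg (hnu x hxu), if_neg (hnv x hxv), h.inv]
    · rw [b1_add_ne ht, b1_add_ne ht, h.inv]
  · intro t x hx
    by_cases ht : t = i
    · subst ht
      rw [b1_add_i] at hx ⊢
      by_cases hxu : x = u
      · subst hxu
        rw [if_pos rfl]
        exact ha
      · rw [if_neg hxu] at hx ⊢
        by_cases hxv : x = v
        · subst hxv
          rw [if_pos rfl]
          exact ha.symm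
        · rw [if_neg hxv] at hx ⊢
          exact h.adj _ _ hx
    · rw [b1_add_ne ht] at hx ⊢
      exact h.adj _ _ hx
  · intro t x hx
    by_cases ht : t = i
    · subst ht
      rw [b1_add_i] at hx
      by_cases hxu : x = u
      · subst hxu
        exact hu
      · rw [if_neg hxu] at hx
        by_cases hxv : x = v
        · subst hxv
          exact hv
        · rw [if_neg hxv] at hx
          exact h.fb _ _ hx
    · rw [b1_add_ne ht] at hx
      exact h.fb _ _ hx
  · intro x hx
    cases i
    · rw [b1_add_ne (by decide : (true : Bool) ≠ false)] at hx ⊢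
      have := key x hx.symm
      rw [hx]
      exact this
    · rw [b1_add_ne (by decide : (false : Bool) ≠ true)] at hx
      exact key x hx

theorem dF_add {i : Bool} {u v : V} (huv : u ≠ v) (mu : m i u = u) (mv : m i v = v) :
    dF (add m i u v) u = dF m u + 1 ∧ dF (add m i u v) v = dF m v + 1 ∧
      ∀ x, x ≠ u → x ≠ v → dF (add m i u v) x = dF m x := by
  have hne : (!i) ≠ i := by cases i <;> decide
  refine ⟨?_, ?_, ?_⟩
  · rw [b1_dF _ i, b1_dF m i, b1_add_i, if_pos rfl, b1_add_ne hne, mu]
    simp [huv.symm]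
    ring
  · rw [b1_dF _ i, b1_dF m i, b1_add_i, if_neg huv.symm, if_pos rfl, b1_add_ne hne, mv]
    simp [huv]
    ring
  · intro x hxu hxv
    rw [b1_dF _ i, b1_dF m i, b1_add_i, if_neg hxu, if_neg hxv, b1_add_ne hne]

theorem b1_rem_i {i : Bool} {p x : V} :
    rem m i p i x = if x = p ∨ x = m i p then x else m i x := by
  simp [rem]

theorem b1_rem_ne {i t : Bool} {p x : V} (ht : t ≠ i) : rem m i p t x = m t x := by
  simp [rem, ht]

theorem val_rem (h : Val G Fb m) (i : Bool) (p : V) : Val G Fb (rem m i p) := by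
  have hsub : ∀ t x, rem m i p t x ≠ x → rem m i p t x = m t x := by
    intro t x hx
    unfold rem at hx ⊢
    split_ifs at hx ⊢ with hc
    · exact absurd rfl hx
    · rfl
  refine ⟨?_, ?_, ?_, ?_⟩
  · intro t x
    by_cases ht : t = i
    · subst ht
      rw [b1_rem_i (x := x)]
      by_cases hx : x = p ∨ x = m t p
      · rw [if_pos hx, b1_rem_i, if_pos hx]
      · rw [if_neg hx, b1_rem_i]
        push Not at hx
        rw [if_neg, h.inv]
        push Not
        refine ⟨fun hcon => hx.2 (b1_sym h hcon).symm, fun hcon => hx.1 ?_⟩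
        have := congrArg (m t) hcon
        rwa [h.inv, h.inv] at this
    · rw [b1_rem_ne ht, b1_rem_ne ht, h.inv]
  · intro t x hx
    have he := hsub t x hx
    rw [he] at hx ⊢
    exact h.adj _ _ hx
  · intro t x hx
    have he := hsub t x hx
    rw [he] at hx
    exact h.fb _ _ hx
  · intro x hx
    by_contra hcon
    have h1 := hsub true x hcon
    have h2 : rem m i p false x = m false x := hsub false x (by rw [← hx]; exact hcon)
    rw [h1] at hcon
    rw [h1, h2] at hx
    exact hcon (h.disj x hx)

theorem dF_rem (h : Val G Fb m) {i : Bool} {p : V} (hp : m i p ≠ p) :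
    dF (rem m i p) p + 1 = dF m p ∧ dF (rem m i p) (m i p) + 1 = dF m (m i p) ∧
      ∀ x, x ≠ p → x ≠ m i p → dF (rem m i p) x = dF m x := by
  have hne : (!i) ≠ i := by cases i <;> decide
  refine ⟨?_, ?_, ?_⟩
  · rw [b1_dF _ i, b1_dF m i, b1_rem_i, if_pos (Or.inl rfl), b1_rem_ne hne]
    simp [hp]
    ring
  · rw [b1_dF _ i, b1_dF m i, b1_rem_i, if_pos (Or.inr rfl), b1_rem_ne hne, h.inv]
    simp [hp.symm]
    ring
  · intro x hx1 hx2
    have hx3 : ¬ (x = p ∨ x = m i p) := fun hc => hc.elim hx1 hx2
    rw [b1_dF _ i, b1_dF m i, b1_rem_i, if_neg hx3, b1_rem_ne hne]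

theorem val_swp (h : Val G Fb m) (T : Finset V) (hT : ∀ i, ∀ x ∈ T, m i x ∈ T)
    (hb : ∀ t, ∀ x ∈ T, m (!t) x ≠ x → ¬ Fb t x) : Val G Fb (swp m T) := by
  have hT' : ∀ i, ∀ x, x ∉ T → m i x ∉ T := by
    intro i x hx hcon
    apply hx
    have := hT i _ hcon
    rwa [h.inv] at this
  refine ⟨?_, ?_, ?_, ?_⟩
  · intro t x
    unfold swp
    by_cases hx : x ∈ T
    · rw [if_pos hx, if_pos (hT _ _ hx), h.inv]
    · rw [if_neg hx, if_neg (hT' _ _ hx), h.inv]
  · intro t x hxx
    unfold swp at hxx ⊢
    by_cases hx : x ∈ T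
    · rw [if_pos hx] at hxx ⊢
      exact h.adj _ _ hxx
    · rw [if_neg hx] at hxx ⊢
      exact h.adj _ _ hxx
  · intro t x hxx
    unfold swp at hxx
    by_cases hx : x ∈ T
    · rw [if_pos hx] at hxx
      exact hb t x hx hxx
    · rw [if_neg hx] at hxx
      exact h.fb _ _ hxx
  · intro x hxx
    unfold swp at hxx ⊢
    by_cases hx : x ∈ T
    · rw [if_pos hx, if_pos hx] at hxx
      rw [if_pos hx]
      simp only [Bool.not_true, Bool.not_false] at hxx ⊢
      rw [hxx]
      exact h.disj x hxx.symm
    · rw [if_neg hx, if_neg hx] at hxx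
      rw [if_neg hx]
      exact h.disj x hxx

theorem dF_swp (T : Finset V) (x : V) : dF (swp m T) x = dF m x := by
  unfold dF swp
  by_cases hx : x ∈ T
  · simp only [if_pos hx, Bool.not_true, Bool.not_false]
    rw [add_comm]
  · simp only [if_neg hx]

/-- the empty pair of matchings -/
theorem val_id : Val G Fb (fun _ x => x) :=
  ⟨fun _ _ => rfl, fun _ _ h => absurd rfl h, fun _ _ h => absurd rfl h, fun _ _ => rfl⟩

/-- degrees outside the matchings.  PROOF. The neighbours of `x` in `G` which are not neighbours in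
`rest G m` are the `m i x` with `m i x ≠ x` (`m i y = x` iff `y = m i x`); these are `dF m x` different
vertices by `disj`. -/
theorem dg_rest (h : Val G Fb m) (x : V) : dg (rest G m) x + dF m x = dg G x := by
  unfold dg
  have h1 : (Finset.univ.filter (fun w => G.Adj x w)) =
      (Finset.univ.filter (fun w => (rest G m).Adj x w)) ∪
        (((Finset.univ : Finset Bool).filter (fun i => m i x ≠ x)).image (fun i => m i x)) := by
    ext w
    simp only [Finset.mem_filter, Finset.mem_univ, true_and, Finset.mem_union, Finset.mem_image]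
    constructor
    · intro hw
      by_cases hc : ∃ i, m i x = w
      · obtain ⟨i, hi⟩ := hc
        exact Or.inr ⟨i, by rw [hi]; exact hw.ne', hi⟩
      · push Not at hc
        exact Or.inl ⟨hw, fun i => ⟨hc i, fun hcon => hc i (b1_sym h hcon)⟩⟩
    · rintro (hw | ⟨i, hi, rfl⟩)
      · exact hw.1
      · exact h.adj _ _ hi
  have h2 : Disjoint (Finset.univ.filter (fun w => (rest G m).Adj x w))
      (((Finset.univ : Finset Bool).filter (fun i => m i x ≠ x)).image (fun i => m i x)) := by
    rw [Finset.disjoint_left]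
    intro w hw hw2
    obtain ⟨i, _, rfl⟩ := Finset.mem_image.mp hw2
    exact ((Finset.mem_filter.mp hw).2.2 i).1 rfl
  have h3 : (((Finset.univ : Finset Bool).filter (fun i => m i x ≠ x)).image
      (fun i => m i x)).card = dF m x := by
    rw [Finset.card_image_of_injOn]
    · unfold dF
      rw [show (Finset.univ : Finset Bool) = {true, false} from rfl, Finset.filter_insert,
        Finset.filter_singleton]
      split_ifs <;> simp
    · intro i hi j hj hij
      simp only [Finset.coe_filter, Finset.mem_univ, true_and, Set.mem_setOf_eq] at hi hj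
      simp only at hij
      by_contra hne
      have := b1_not (Ne.symm hne)
      subst this
      exact hi (b1_disj h hij)
  rw [h1, Finset.card_union_of_disjoint h2, h3]

theorem dF_le_two (x : V) : dF m x ≤ 2 := by
  unfold dF
  split_ifs <;> omega

/-- a vertex covered at most once misses a colour -/
theorem exists_miss (x : V) (hx : dF m x ≤ 1) : ∃ i, m i x = x := by
  by_contra hcon
  push Not at hcon
  unfold dF at hx
  rw [if_pos (hcon true), if_pos (hcon false)] at hx
  omega

end H87B
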