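import Pool.Agent.Lib.H87B.B4

/-! # B5: the core of the rest is a matching -/

open Classical

namespace H87B

variable {V : Type*} [Fintype V] [DecidableEq V] {G : SimpleGraph V} {Fb : Bool → V → Prop}

/-- **B5 (M).** PROOF. `X` = the clean vertices with `dg G x = K + 1`. Among all `m` with `Val G Fb m`
which cover `X` (there is one, `m0`) take one with `Phi Fb m` maximal (the functions `Bool → V → V` are
finitely many). By `dg_rest` all degrees of `rest G m` are `<= K`. Let `x` have two different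
neighbours `y`, `z` in `rest G m`, all three of degree `K` in `rest G m`. They are clean (`hs`), and
`dF m <= 1` at each of them (`hc`, `dg_rest`). Say `m i x = x` (`exists_miss`). By `core_add` and
maximality `m i y ≠ y`, hence `dF m y = 1`, `m (!i) y = y`; the same for `z`; by `core_add` again
`m (!i) x ≠ x`, so `dF m x = 1`. Let `T` be the component of `x` (`comp_set`). By `core_kempe` and maximality
`y ∈ T`, `z ∈ T`; then the deficiencies of `T` sum to at least `3`. -/
theorem core_matching (K : ℕ) (hc : ∀ x, Cl Fb x → dg G x ≤ K + 1)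
    (hs : ∀ x, ¬ Cl Fb x → dg G x + 1 ≤ K) {m0 : Bool → V → V} (h0 : Val G Fb m0)
    (hX0 : ∀ x, Cl Fb x → dg G x = K + 1 → 1 ≤ dF m0 x) :
    ∃ m, Val G Fb m ∧ (∀ x, dg (rest G m) x ≤ K) ∧
      ∀ x y z, (rest G m).Adj x y → (rest G m).Adj x z → dg (rest G m) x = K →
        dg (rest G m) y = K → dg (rest G m) z = K → y = z := by
  obtain ⟨X, hXdef⟩ : ∃ X : Finset V, X = Finset.univ.filter
    (fun x => Cl Fb x ∧ dg G x = K + 1) := ⟨_, rfl⟩
  have hXmem : ∀ x, x ∈ X ↔ (Cl Fb x ∧ dg G x = K + 1) := by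
    intro x
    rw [hXdef, Finset.mem_filter]
    simp
  have hXc : ∀ x ∈ X, Cl Fb x := fun x hx => ((hXmem x).mp hx).1
  -- a maximal pair
  obtain ⟨m, hm, hmX, hmax⟩ : ∃ m, Val G Fb m ∧ (∀ x ∈ X, 1 ≤ dF m x) ∧
      ∀ m', Val G Fb m' → (∀ x ∈ X, 1 ≤ dF m' x) → Phi Fb m' ≤ Phi Fb m := by
    obtain ⟨m, hm, hmax⟩ := Finset.exists_max_image
      ((Finset.univ : Finset (Bool → V → V)).filter
        (fun m => Val G Fb m ∧ ∀ x ∈ X, 1 ≤ dF m x)) (fun m => Phi Fb m)
      ⟨m0, Finset.mem_filter.mpr ⟨Finset.mem_univ _, h0, fun x hx =>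
        hX0 x ((hXmem x).mp hx).1 ((hXmem x).mp hx).2⟩⟩
    have hm' := (Finset.mem_filter.mp hm).2
    exact ⟨m, hm'.1, hm'.2, fun m' h1 h2 =>
      hmax m' (Finset.mem_filter.mpr ⟨Finset.mem_univ _, h1, h2⟩)⟩
  have hdeg : ∀ x, dg (rest G m) x ≤ K := by
    intro x
    have h1 := dg_rest hm x
    by_cases hcl : Cl Fb x
    · have h2 := hc x hcl
      by_cases h3 : dg G x = K + 1
      · have h4 := hmX x ((hXmem x).mpr ⟨hcl, h3⟩)
        omega
      · omega
    · have h2 := hs x hcl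
      omega
  refine ⟨m, hm, hdeg, ?_⟩
  intro x y z hxy hxz hx hy hz
  by_contra hyz
  -- clean vertices with `dF <= 1`
  have hcore : ∀ t, dg (rest G m) t = K → Cl Fb t ∧ dF m t ≤ 1 := by
    intro t ht
    have h1 := dg_rest hm t
    by_cases hcl : Cl Fb t
    · have h2 := hc t hcl
      exact ⟨hcl, by omega⟩
    · have h2 := hs t hcl
      omega
  obtain ⟨cx, dx⟩ := hcore x hx
  obtain ⟨cy, dy⟩ := hcore y hy
  obtain ⟨cz, dz⟩ := hcore z hz
  obtain ⟨i, hi⟩ := exists_miss (m := m) x dx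
  have hno : ∀ j t, (rest G m).Adj x t → Cl Fb t → m j x = x → m j t = t → False := by
    intro j t hxt ct hjx hjt
    obtain ⟨m', h1, h2, h3⟩ := core_add hm X hmX cx ct hxt hjx hjt
    have := hmax m' h1 h2
    omega
  have hside : ∀ t, (rest G m).Adj x t → Cl Fb t → dF m t ≤ 1 →
      m (!i) t = t ∧ dF m t = 1 := by
    intro t hxt ct dt
    have h1 : m i t ≠ t := fun hcon => hno i t hxt ct hi hcon
    rw [b1_dF m i, if_pos h1] at dt ⊢
    by_cases h2 : m (!i) t = t
    · refine ⟨h2, ?_⟩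
      rw [if_neg (not_not.mpr h2)]
    · rw [if_pos h2] at dt
      omega
  obtain ⟨my, dy1⟩ := hside y hxy cy dy
  obtain ⟨mz, dz1⟩ := hside z hxz cz dz
  have hx1 : dF m x = 1 := by
    have h1 : m (!i) x ≠ x := fun hcon => hno (!i) y hxy cy hcon my
    rw [b1_dF m i, if_neg (not_not.mpr hi), if_pos h1]
  obtain ⟨T, huT, hT, hsum⟩ := comp_set hm x
  have hin : ∀ t, (rest G m).Adj x t → Cl Fb t → m (!i) t = t → t ∈ T := by
    intro t hxt ct mt
    by_contra hcon
    obtain ⟨m', h1, h2, h3⟩ := core_kempe hm X hXc hmX cx ct hxt hi hx1 mt T huT hcon hT hsum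
    have := hmax m' h1 h2
    omega
  have hyT := hin y hxy cy my
  have hzT := hin z hxz cz mz
  have := b4b_three hsum huT hyT hzT hxy.ne hxz.ne hyz dx dy
  omega

end H87B
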