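import Pool.Agent.Lib.H87B.B7

/-! # B8: a maximal pair has no alternating walk to an improvement -/

open Classical

namespace H87B

variable {V : Type*} [Fintype V] [DecidableEq V] {G : SimpleGraph V} {Fb : Bool → V → Prop}

/-- **B8 (M).** PROOF. Strong induction on `n`, for all `m` and `v`. `n = 0`: `no_bad_zero`. `n + 1`: the walk
starts with `y`, `i`, `G.Adj v y`, `m i y ≠ y`, `Bad m n v'`, `v' = m i y`. If `v' ∉ X` or `2 <= dF m v'`
then `Bad m 0 v` (constructor `b`). Otherwise let `m' = exch m i y v` (`exch_spec`): `cnt X m' = cnt X m` (`v`
becomes covered, `v'` uncovered: `dF m' v' = 0`, the others keep their `dF`), so `m'` is maximal too and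
`v'` is uncovered in `m'`. Let `n0 <= n` be minimal with `Bad m n0 v'` (`Nat.find`) and apply `bad_exch` with
`n0`, `x = v'`: the first alternative contradicts the induction hypothesis for `m'`, `v'` (`k <= n`), the
second the one for `m`, `v`, the third the minimality of `n0`. -/
theorem no_bad {X : Finset V} (hX : ∀ x ∈ X, Cl Fb x) : ∀ (n : ℕ) (m : Bool → V → V),
    Val G Fb m → (∀ m', Val G Fb m' → cnt X m' ≤ cnt X m) → ∀ v ∈ X, dF m v = 0 →
      ¬ Bad G Fb X m n v := by
  intro n
  induction n using Nat.strong_induction_on with
  | _ n ih =>
    intro m h hmax v hv hv0 hb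
    cases hb with
    | a _ y i hxy hfb hm => exact no_bad_zero hX h hmax hv hv0 (Bad.a v y i hxy hfb hm)
    | b _ y i hxy hm hbad => exact no_bad_zero hX h hmax hv hv0 (Bad.b v y i hxy hm hbad)
    | s n _ y i hxy hm hbad =>
      by_cases hc1 : m i y ∉ X ∨ 2 ≤ dF m (m i y)
      · exact no_bad_zero hX h hmax hv hv0 (Bad.b v y i hxy hm hc1)
      · have hc2 : m i y ∈ X ∧ dF m (m i y) ≤ 1 := by
          constructor
          · by_contra hcon
            exact hc1 (Or.inl hcon)
          · by_contra hcon
            exact hc1 (Or.inr (by omega))
        obtain ⟨hV, f1, f2, f3, f4, f5, f6, f7, f8⟩ := exch_spec h (hX v hv) hv0 hxy hm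
        have hz : dF (exch m i y v) (m i y) = 0 := by omega
        have hvm : v ≠ m i y := by
          intro hcon
          rw [← hcon] at f8
          omega
        have hvy : v ≠ y := hxy.ne
        -- the count does not change
        have hcnt : cnt X (exch m i y v) = cnt X m := by
          unfold cnt
          have hmem : m i y ∈ X.filter (fun x => 1 ≤ dF m x) :=
            Finset.mem_filter.mpr ⟨hc2.1, by omega⟩
          have hset : X.filter (fun x => 1 ≤ dF (exch m i y v) x) =
              insert v ((X.filter (fun x => 1 ≤ dF m x)).erase (m i y)) := by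
            ext x
            simp only [Finset.mem_filter, Finset.mem_insert, Finset.mem_erase]
            by_cases hxv : x = v
            · subst hxv
              simp [hv, f6]
            · by_cases hxm : x = m i y
              · rw [hxm]
                simp [hz, hvm.symm]
              · have he : dF (exch m i y v) x = dF m x := by
                  by_cases hxy' : x = y
                  · rw [hxy']; exact f7
                  · unfold dF
                    rw [f1 x hxv hxy' hxm, f1 x hxv hxy' hxm]
                rw [he]
                simp [hxv, hxm]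
          have hvn : v ∉ (X.filter (fun x => 1 ≤ dF m x)).erase (m i y) := by
            intro hcon
            have := (Finset.mem_filter.mp (Finset.mem_of_mem_erase hcon)).2
            omega
          rw [hset, Finset.card_insert_of_notMem hvn, Finset.card_erase_of_mem hmem]
          have : 0 < (X.filter (fun x => 1 ≤ dF m x)).card := Finset.card_pos.mpr ⟨_, hmem⟩
          omega
        have hmax' : ∀ m', Val G Fb m' → cnt X m' ≤ cnt X (exch m i y v) := by
          intro m' hm'
          rw [hcnt]
          exact hmax m' hm'
        have hex : ∃ k, Bad G Fb X m k (m i y) := ⟨n, hbad⟩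
        obtain ⟨n0, hn0⟩ : ∃ n0, n0 = Nat.find hex := ⟨_, rfl⟩
        have hb0 : Bad G Fb X m n0 (m i y) := by rw [hn0]; exact Nat.find_spec hex
        have hle : n0 ≤ n := by rw [hn0]; exact Nat.find_min' hex hbad
        rcases bad_exch hX h hv hv0 hxy hm hc2.1 hc2.2 n0 (m i y) hc2.1 hc2.2 hb0 with
          ⟨k, hk, hk2⟩ | ⟨k, hk, hk2⟩ | ⟨k, hk, hk2⟩
        · exact ih k (by omega) _ hV hmax' _ hc2.1 hz hk2
        · exact ih k (by omega) m h hmax v hv hv0 hk2
        · rw [hn0] at hk
          exact Nat.find_min hex hk hk2

end H87B
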