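import Pool.Agent.Lib.H87B.B1

/-! # B9: counting -/

open Classical

namespace H87B

variable {V : Type*} [Fintype V] [DecidableEq V] {G : SimpleGraph V} {Fb : Bool → V → Prop}
  {m : Bool → V → V}

/-- **B9 (M/L).** PROOF. `Step x x'` iff `∃ y i, G.Adj x y ∧ m i y ≠ y ∧ x' = m i y`;
`A = {x : Relation.ReflTransGen Step v0 x}`. If `Bad m n x` for some `x ∈ A`, `n`, then `Bad m k v0` for some
`k` (constructor `s`, induction on the path, `Relation.ReflTransGen.head_induction_on`). So for `x ∈ A`,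
`G.Adj x y`, `¬ Fb i y`: `m i y ≠ y` (constructor `a`), `m i y ∈ X` and `dF m (m i y) <= 1` (constructor `b`),
and `m i y ∈ A`. In particular `A ⊆ X`, and every `x ∈ A` has `dF m x <= 1`.
`Y = {y : (∃ i, ¬ Fb i y) ∧ ∃ x ∈ A, G.Adj x y}`, `Q = {(i,y) : y ∈ Y, ¬ Fb i y}`. The map `(i,y) -> m i y`
from `Q` to `A.erase v0` is injective: if `m i y = m i' y' = x` and `i = i'` then `y = y'` by `inv`; if
`i ≠ i'` then `m i x = y ≠ x`, `m i' x = y' ≠ x`, so `dF m x = 2`, contradiction; `x ≠ v0` as `dF m v0 = 0`.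
So `|Q| <= |A| - 1`. On the other hand
`q |A| <= ∑ x ∈ A, #{y : G.Adj x y ∧ ∃ i, ¬ Fb i y} <= ∑ y ∈ Y, dg G y <= ∑ y ∈ Y, q #{i : ¬ Fb i y} = q |Q|`
(double counting of the pairs `(x,y)`, `x ∈ A`, `y ∈ Y`, `G.Adj x y`), a contradiction as `q >= 1`, `|A| >= 1`. -/
theorem count_contra {X : Finset V} (h : Val G Fb m) {v0 : V} (hv : v0 ∈ X)
    (hv0 : dF m v0 = 0) (hb : ∀ n, ¬ Bad G Fb X m n v0) (q : ℕ) (hq : 1 ≤ q)
    (h1 : ∀ x ∈ X, q ≤ (Finset.univ.filter (fun y => G.Adj x y ∧ ∃ i, ¬ Fb i y)).card)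
    (h2 : ∀ y, (∃ i, ¬ Fb i y) →
      dg G y ≤ q * ((Finset.univ : Finset Bool).filter (fun i => ¬ Fb i y)).card) : False := by
  obtain ⟨Step, hStep⟩ : ∃ Step : V → V → Prop, ∀ x x', Step x x' ↔
      ∃ y i, G.Adj x y ∧ m i y ≠ y ∧ x' = m i y :=
    ⟨fun x x' => ∃ y i, G.Adj x y ∧ m i y ≠ y ∧ x' = m i y, fun _ _ => Iff.rfl⟩
  obtain ⟨A, hA⟩ : ∃ A : Finset V, ∀ x, x ∈ A ↔ Relation.ReflTransGen Step v0 x :=
    ⟨Finset.univ.filter (fun x => Relation.ReflTransGen Step v0 x), fun x => by simp⟩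
  have hv0A : v0 ∈ A := (hA v0).mpr Relation.ReflTransGen.refl
  -- no bad walk starts in `A`
  have hbA : ∀ x ∈ A, ∀ n, ¬ Bad G Fb X m n x := by
    intro x hx
    have hx' := (hA x).mp hx
    clear hx
    induction hx' with
    | refl => exact hb
    | tail _ hst ih =>
      intro n hn
      obtain ⟨y, i, h1, h2, h3⟩ := (hStep _ _).mp hst
      rw [h3] at hn
      exact ih (n + 1) (Bad.s n _ y i h1 h2 hn)
  have hfull : ∀ x ∈ A, ∀ y i, G.Adj x y → ¬ Fb i y →
      m i y ≠ y ∧ m i y ∈ X ∧ dF m (m i y) ≤ 1 ∧ m i y ∈ A := by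
    intro x hx y i hxy hfb
    have h1 : m i y ≠ y := fun hcon => hbA x hx 0 (Bad.a x y i hxy hfb hcon)
    have h2 : ¬ (m i y ∉ X ∨ 2 ≤ dF m (m i y)) :=
      fun hcon => hbA x hx 0 (Bad.b x y i hxy h1 hcon)
    push Not at h2
    refine ⟨h1, h2.1, by omega, (hA _).mpr ?_⟩
    exact ((hA x).mp hx).tail ((hStep _ _).mpr ⟨y, i, hxy, h1, rfl⟩)
  have hAX : ∀ x ∈ A, x ∈ X := by
    intro x hx
    have hx' := (hA x).mp hx
    rcases Relation.ReflTransGen.cases_tail hx' with h1 | ⟨z, hz, hst⟩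
    · rw [h1]; exact hv
    · obtain ⟨y, i, h2, h3, h4⟩ := (hStep _ _).mp hst
      rw [h4]
      exact (hfull z ((hA z).mpr hz) y i h2 (h.fb i y h3)).2.1
  obtain ⟨Y, hY⟩ : ∃ Y : Finset V, ∀ y, y ∈ Y ↔ ((∃ i, ¬ Fb i y) ∧ ∃ x ∈ A, G.Adj x y) :=
    ⟨Finset.univ.filter (fun y => (∃ i, ¬ Fb i y) ∧ ∃ x ∈ A, G.Adj x y), fun x => by simp⟩
  obtain ⟨Q, hQ⟩ : ∃ Q : Finset (Bool × V), ∀ p, p ∈ Q ↔ (p.2 ∈ Y ∧ ¬ Fb p.1 p.2) :=
    ⟨Finset.univ.filter (fun p => p.2 ∈ Y ∧ ¬ Fb p.1 p.2), fun x => by simp⟩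
  have hQfull : ∀ p ∈ Q, m p.1 p.2 ≠ p.2 ∧ m p.1 p.2 ∈ X ∧ dF m (m p.1 p.2) ≤ 1 ∧
      m p.1 p.2 ∈ A := by
    intro p hp
    obtain ⟨h1, h2⟩ := (hQ p).mp hp
    obtain ⟨_, x, hx, hxy⟩ := (hY _).mp h1
    exact hfull x hx p.2 p.1 hxy h2
  -- `|Q| <= |A| - 1`
  have hQA : Q.card + 1 ≤ A.card := by
    have h1 : Q.card ≤ (A.erase v0).card := by
      apply Finset.card_le_card_of_injOn (fun p => m p.1 p.2)
      · intro p hp
        obtain ⟨g1, g2, g3, g4⟩ := hQfull p hp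
        refine Finset.mem_coe.mpr (Finset.mem_erase.mpr ⟨?_, g4⟩)
        intro hcon
        have h3 : m p.1 v0 = p.2 := by
          rw [← hcon, h.inv]
        have h4 : m p.1 v0 ≠ v0 := by
          rw [h3]
          intro h5
          rw [← hcon] at h5
          exact g1 h5.symm
        rw [b1_dF m p.1, if_pos h4] at hv0
        omega
      · intro p hp p' hp' heq
        simp only at heq
        obtain ⟨g1, g2, g3, g4⟩ := hQfull p hp
        obtain ⟨g1', g2', g3', g4'⟩ := hQfull p' hp'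
        by_cases hi : p.1 = p'.1
        · have : p.2 = p'.2 := by
            have h5 := congrArg (m p.1) heq
            rw [h.inv, hi, h.inv] at h5
            exact h5
          exact Prod.ext hi this
        · exfalso
          have hi' : p'.1 = !p.1 := b1_not (Ne.symm hi)
          obtain ⟨x, hx⟩ : ∃ x, x = m p.1 p.2 := ⟨_, rfl⟩
          have h6 : m p.1 x = p.2 := by rw [hx, h.inv]
          have h7 : m (!p.1) x = p'.2 := by rw [hx, heq, ← hi', h.inv]
          have h8 : m p.1 x ≠ x := by rw [h6, hx]; exact Ne.symm g1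
          have h9 : m (!p.1) x ≠ x := by rw [h7, hx, heq]; exact Ne.symm g1'
          rw [← hx, b1_dF m p.1, if_pos h8, if_pos h9] at g3
          omega
    have h2 := Finset.card_erase_of_mem hv0A
    have h3 : 0 < A.card := Finset.card_pos.mpr ⟨_, hv0A⟩
    omega
  -- the sum over `Y`
  have hQcard : ∑ y ∈ Y, ((Finset.univ : Finset Bool).filter (fun i => ¬ Fb i y)).card = Q.card := by
    have h1 : Q = Y.biUnion (fun y => ((Finset.univ : Finset Bool).filter
        (fun i => ¬ Fb i y)).image (fun i => (i, y))) := by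
      ext p
      rw [hQ]
      simp only [Finset.mem_biUnion, Finset.mem_image, Finset.mem_filter, Finset.mem_univ,
        true_and]
      constructor
      · rintro ⟨g1, g2⟩
        exact ⟨p.2, g1, p.1, g2, rfl⟩
      · rintro ⟨y, g1, i, g2, rfl⟩
        exact ⟨g1, g2⟩
    rw [h1, Finset.card_biUnion]
    · refine Finset.sum_congr rfl fun y _ => ?_
      rw [Finset.card_image_of_injective]
      intro a b hab
      exact (Prod.ext_iff.mp hab).1
    · intro y _ y' _ hne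
      rw [Function.onFun, Finset.disjoint_left]
      intro p hp hp'
      obtain ⟨i, _, rfl⟩ := Finset.mem_image.mp hp
      obtain ⟨j, _, hj⟩ := Finset.mem_image.mp hp'
      exact hne (Prod.ext_iff.mp hj).2.symm
  -- double counting
  have hdc : ∑ x ∈ A, (Finset.univ.filter (fun y => G.Adj x y ∧ ∃ i, ¬ Fb i y)).card ≤
      ∑ y ∈ Y, dg G y := by
    have h1 : ∀ x ∈ A, (Finset.univ.filter (fun y => G.Adj x y ∧ ∃ i, ¬ Fb i y)).card =
        (Y.filter (fun y => G.Adj x y)).card := by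
      intro x hx
      congr 1
      ext y
      simp only [Finset.mem_filter, Finset.mem_univ, true_and, hY]
      constructor
      · rintro ⟨g1, g2⟩
        exact ⟨⟨g2, x, hx, g1⟩, g1⟩
      · rintro ⟨⟨g1, _⟩, g2⟩
        exact ⟨g2, g1⟩
    rw [Finset.sum_congr rfl h1]
    have h2 : ∑ x ∈ A, (Y.filter (fun y => G.Adj x y)).card =
        ∑ y ∈ Y, (A.filter (fun x => G.Adj x y)).card := by
      simp only [Finset.card_filter]
      exact Finset.sum_comm
    rw [h2]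
    refine Finset.sum_le_sum fun y _ => ?_
    unfold dg
    apply Finset.card_le_card
    intro x hx
    exact Finset.mem_filter.mpr ⟨Finset.mem_univ _, (Finset.mem_filter.mp hx).2.symm⟩
  have hlow : q * A.card ≤
      ∑ x ∈ A, (Finset.univ.filter (fun y => G.Adj x y ∧ ∃ i, ¬ Fb i y)).card := by
    have := Finset.sum_le_sum (fun x hx => h1 x (hAX x hx))
    rw [Finset.sum_const, smul_eq_mul, mul_comm] at this
    exact this
  have hup : ∑ y ∈ Y, dg G y ≤ q * Q.card := by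
    rw [← hQcard, Finset.mul_sum]
    exact Finset.sum_le_sum fun y hy => h2 y ((hY y).mp hy).1
  have hfin : q * A.card ≤ q * Q.card := hlow.trans (hdc.trans hup)
  have := Nat.le_of_mul_le_mul_left hfin hq
  omega

end H87B
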