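import Pool.Agent.Lib.H87B.A6
import Pool.Agent.Lib.H87B.B5
import Pool.Agent.Lib.H87B.B8
import Pool.Agent.Lib.H87B.B9

/-! # B10: colouring graphs with two colours forbidden at some vertices -/

open Classical

namespace H87B

variable {V : Type*} [Fintype V] [DecidableEq V] {G : SimpleGraph V} {Fb : Bool → V → Prop}

/-- **B10a (S/M).** PROOF. Take `m` with `Val G Fb m` and `cnt X m` maximal (finitely many functions;
`val_id`). If `v0 ∈ X` has `dF m v0 = 0`: `no_bad` and `count_contra`. -/
theorem cover {X : Finset V} (hX : ∀ x ∈ X, Cl Fb x) (q : ℕ) (hq : 1 ≤ q)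
    (h1 : ∀ x ∈ X, q ≤ (Finset.univ.filter (fun y => G.Adj x y ∧ ∃ i, ¬ Fb i y)).card)
    (h2 : ∀ y, (∃ i, ¬ Fb i y) →
      dg G y ≤ q * ((Finset.univ : Finset Bool).filter (fun i => ¬ Fb i y)).card) :
    ∃ m, Val G Fb m ∧ ∀ x ∈ X, 1 ≤ dF m x := by
  obtain ⟨m, hm, hmax⟩ := Finset.exists_max_image
    ((Finset.univ : Finset (Bool → V → V)).filter (fun m => Val G Fb m)) (fun m => cnt X m)
    ⟨fun _ x => x, Finset.mem_filter.mpr ⟨Finset.mem_univ _, val_id⟩⟩
  have hm' := (Finset.mem_filter.mp hm).2
  have hmax' : ∀ m', Val G Fb m' → cnt X m' ≤ cnt X m := fun m' h =>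
    hmax m' (Finset.mem_filter.mpr ⟨Finset.mem_univ _, h⟩)
  refine ⟨m, hm', ?_⟩
  intro x hx
  by_contra hcon
  have hx0 : dF m x = 0 := by omega
  exact count_contra hm' hx hx0 (fun n => no_bad hX n m hm' hmax' x hx hx0) q hq h1 h2

/-- **B10b (M).** PROOF. `cover` with `X` = the clean vertices of degree `K + 1`, `core_matching`, then
`vizing_fournier` for `rest G m` with `S = {2,..,K+1}` (`Finset.Ico 2 (K+2)`, `K` elements) gives `c`.
`col u v = 0` if `m true u = v`, `1` if `m false u = v`, and `c u v` otherwise. The colour `0` (the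
matching `m true`) is not used at `u` if `Fb true u`, the colour `1` not if `Fb false u`. -/
theorem graph_col (K q : ℕ) (hc : ∀ x, Cl Fb x → dg G x ≤ K + 1)
    (hs : ∀ x, ¬ Cl Fb x → dg G x + 1 ≤ K) (hq : 1 ≤ q)
    (h1 : ∀ x, Cl Fb x → dg G x = K + 1 →
      q ≤ (Finset.univ.filter (fun y => G.Adj x y ∧ ∃ i, ¬ Fb i y)).card)
    (h2 : ∀ y, (∃ i, ¬ Fb i y) →
      dg G y ≤ q * ((Finset.univ : Finset Bool).filter (fun i => ¬ Fb i y)).card) :
    ∃ col : V → V → ℕ, IsCol G (Finset.range (K + 2)) col ∧
      ∀ u v, G.Adj u v → (Fb true u → col u v ≠ 0) ∧ (Fb false u → col u v ≠ 1) := by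
  obtain ⟨m0, hm0, hm0X⟩ := cover (G := G) (Fb := Fb)
    (X := Finset.univ.filter (fun x => Cl Fb x ∧ dg G x = K + 1))
    (fun x hx => (Finset.mem_filter.mp hx).2.1) q hq
    (fun x hx => h1 x (Finset.mem_filter.mp hx).2.1 (Finset.mem_filter.mp hx).2.2) h2
  obtain ⟨m, hm, hK, hcore⟩ := core_matching K hc hs hm0
    (fun x hx1 hx2 => hm0X x (Finset.mem_filter.mpr ⟨Finset.mem_univ _, hx1, hx2⟩))
  have hcard : (Finset.Ico 2 (K + 2)).card = K := by simp
  obtain ⟨c, hcc⟩ := vizing_fournier (Finset.Ico 2 (K + 2)) (rest G m)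
    (fun x => by rw [hcard]; exact hK x)
    (fun x y z hxy hxz hx hy hz => by
      rw [hcard] at hx hy hz
      exact hcore x y z hxy hxz hx hy hz)
  obtain ⟨col, hcol⟩ : ∃ col : V → V → ℕ, col = fun u v =>
    if m true u = v then 0 else if m false u = v then 1 else c u v := ⟨_, rfl⟩
  have hrest : ∀ u v, G.Adj u v → m true u ≠ v → m false u ≠ v → (rest G m).Adj u v := by
    intro u v huv h3 h4
    refine ⟨huv, fun i => ?_⟩
    cases i
    · exact ⟨h4, fun hcon => h4 (b1_sym hm hcon)⟩
    · exact ⟨h3, fun hcon => h3 (b1_sym hm hcon)⟩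
  have hsym : ∀ i u v, m i u = v ↔ m i v = u := fun i u v =>
    ⟨fun h => b1_sym hm h, fun h => b1_sym hm h⟩
  have hge : ∀ u v, G.Adj u v → m true u ≠ v → m false u ≠ v → 2 ≤ c u v ∧ c u v < K + 2 := by
    intro u v huv h3 h4
    exact Finset.mem_Ico.mp (hcc.mem u v (hrest u v huv h3 h4))
  refine ⟨col, ⟨?_, ?_, ?_⟩, ?_⟩
  · intro u v huv
    rw [hcol]
    simp only
    by_cases h3 : m true u = v
    · rw [if_pos h3, if_pos ((hsym _ _ _).mp h3)]
    · have h3' : ¬ m true v = u := fun h => h3 ((hsym _ _ _).mp h)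
      rw [if_neg h3, if_neg h3']
      by_cases h4 : m false u = v
      · rw [if_pos h4, if_pos ((hsym _ _ _).mp h4)]
      · have h4' : ¬ m false v = u := fun h => h4 ((hsym _ _ _).mp h)
        rw [if_neg h4, if_neg h4']
        exact hcc.sy u v (hrest u v huv h3 h4)
  · intro u v huv
    rw [hcol, Finset.mem_range]
    simp only
    by_cases h3 : m true u = v
    · rw [if_pos h3]; omega
    · rw [if_neg h3]
      by_cases h4 : m false u = v
      · rw [if_pos h4]
        -- `K + 2 > 1`
        omega
      · rw [if_neg h4]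
        exact (hge u v huv h3 h4).2
  · intro u v w huv huw hvw
    rw [hcol]
    simp only
    by_cases h3 : m true u = v
    · rw [if_pos h3]
      by_cases h5 : m true u = w
      · exact absurd (h3.symm.trans h5) hvw
      · rw [if_neg h5]
        by_cases h6 : m false u = w
        · rw [if_pos h6]; omega
        · rw [if_neg h6]
          have := (hge u w huw h5 h6).1
          omega
    · rw [if_neg h3]
      by_cases h4 : m false u = v
      · rw [if_pos h4]
        by_cases h5 : m true u = w
        · rw [if_pos h5]; omega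
        · rw [if_neg h5]
          by_cases h6 : m false u = w
          · exact absurd (h4.symm.trans h6) hvw
          · rw [if_neg h6]
            have := (hge u w huw h5 h6).1
            omega
      · rw [if_neg h4]
        have h7 := (hge u v huv h3 h4).1
        by_cases h5 : m true u = w
        · rw [if_pos h5]; omega
        · rw [if_neg h5]
          by_cases h6 : m false u = w
          · rw [if_pos h6]; omega
          · rw [if_neg h6]
            exact hcc.pr u v w (hrest u v huv h3 h4) (hrest u w huw h5 h6) hvw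
  · intro u v huv
    rw [hcol]
    simp only
    constructor
    · intro hF
      by_cases h3 : m true u = v
      · exfalso
        exact hm.fb true u (by rw [h3]; exact huv.ne') hF
      · rw [if_neg h3]
        by_cases h4 : m false u = v
        · rw [if_pos h4]; omega
        · rw [if_neg h4]
          have := (hge u v huv h3 h4).1
          omega
    · intro hF
      by_cases h3 : m true u = v
      · rw [if_pos h3]; omega
      · rw [if_neg h3]
        by_cases h4 : m false u = v
        · exfalso
          exact hm.fb false u (by rw [h4]; exact huv.ne') hF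
        · rw [if_neg h4]
          have := (hge u v huv h3 h4).1
          omega

end H87B
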