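import Pool.Agent.Lib.H87B.A1
import Pool.Agent.Lib.H87B.B1

/-! # B3: components of a pair of matchings -/

open Classical

namespace H87B

variable {V : Type*} [Fintype V] [DecidableEq V] {G : SimpleGraph V} {Fb : Bool → V → Prop}
  {m : Bool → V → V}

/-- **B3 (M).** PROOF. Apply `cmp_deficit` to the graph `R` with `R.Adj x y` iff `x ≠ y` and
`∃ i, m i x = y` (symmetric by `inv`); `dg R x = dF m x` by `disj`; `T = cmp R u`. -/
theorem comp_set (h : Val G Fb m) (u : V) : ∃ T : Finset V, u ∈ T ∧ (∀ i, ∀ x ∈ T, m i x ∈ T) ∧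
    ∑ x ∈ T, (2 - dF m x) ≤ 2 := by
  obtain ⟨R, hR⟩ : ∃ R : SimpleGraph V, ∀ x y, R.Adj x y ↔ (x ≠ y ∧ ∃ i, m i x = y) := by
    refine ⟨⟨fun x y => x ≠ y ∧ ∃ i, m i x = y, ⟨?_⟩, ⟨?_⟩⟩, fun x y => Iff.rfl⟩
    · rintro x y ⟨hxy, i, hi⟩
      exact ⟨hxy.symm, i, b1_sym h hi⟩
    · rintro x ⟨hx, _⟩
      exact hx rfl
  have hdg : ∀ x, dg R x = dF m x := by
    intro x
    unfold dg
    have h1 : (Finset.univ.filter (fun w => R.Adj x w)) =
        (((Finset.univ : Finset Bool).filter (fun i => m i x ≠ x)).image (fun i => m i x)) := by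
      ext w
      simp only [Finset.mem_filter, Finset.mem_univ, true_and, Finset.mem_image, hR]
      constructor
      · rintro ⟨hxw, i, hi⟩
        exact ⟨i, by rw [hi]; exact hxw.symm, hi⟩
      · rintro ⟨i, hi, rfl⟩
        exact ⟨Ne.symm hi, i, rfl⟩
    rw [h1, Finset.card_image_of_injOn]
    · unfold dF
      rw [show (Finset.univ : Finset Bool) = {true, false} from rfl, Finset.filter_insert,
        Finset.filter_singleton]
      split_ifs <;> simp
    · intro i hi j hj hij
      simp only [Finset.coe_filter, Finset.mem_univ, true_and, Set.mem_ofPred_eq] at hi hj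
      simp only at hij
      by_contra hne
      have := b1_not (Ne.symm hne)
      subst this
      exact hi (b1_disj h hij)
  have hcmp := cmp_deficit R (fun y => by rw [hdg]; exact dF_le_two y) u
  refine ⟨cmp R u, ?_, ?_, ?_⟩
  · exact Finset.mem_filter.mpr ⟨Finset.mem_univ _, SimpleGraph.Reachable.refl u⟩
  · intro i x hx
    have hx' := (Finset.mem_filter.mp hx).2
    refine Finset.mem_filter.mpr ⟨Finset.mem_univ _, ?_⟩
    by_cases hmx : m i x = x
    · rw [hmx]; exact hx'
    · exact hx'.trans (SimpleGraph.Adj.reachable ((hR _ _).mpr ⟨Ne.symm hmx, i, rfl⟩))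
  · rw [Finset.sum_congr rfl (fun x _ => by rw [hdg])] at hcmp
    exact hcmp

end H87B
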