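import Pool.Agent.Lib.H87B.B3

/-! # B4: the Kempe argument for core edges -/

open Classical

namespace H87B

variable {V : Type*} [Fintype V] [DecidableEq V] {G : SimpleGraph V} {Fb : Bool → V → Prop}
  {m : Bool → V → V}

theorem b4b_phi_two {m m' : Bool → V → V} {u v : V} (huv : u ≠ v) (cu : Cl Fb u) (cv : Cl Fb v)
    (h1 : dF m' u = dF m u + 1) (h2 : dF m' v = dF m v + 1)
    (h3 : ∀ x, x ≠ u → x ≠ v → dF m' x = dF m x) : Phi Fb m' = Phi Fb m + 2 := by
  have key : ∀ x, dF m' x = dF m x + ((if x = u then 1 else 0) + (if x = v then 1 else 0)) := by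
    intro x
    by_cases hxu : x = u
    · subst hxu
      simp [h1, huv]
    · by_cases hxv : x = v
      · subst hxv
        simp [h2, hxu]
      · simp [h3 x hxu hxv, hxu, hxv]
  unfold Phi
  rw [Finset.sum_congr rfl (fun x _ => key x), Finset.sum_add_distrib, Finset.sum_add_distrib,
    Finset.sum_ite_eq', Finset.sum_ite_eq']
  simp [cu, cv]

/-- **B4a (S/M).** PROOF. `m' = add m i u v` (`val_add`, `dF_add`); both `u` and `v` are clean, so `Phi`
increases by 2. -/
theorem core_add (h : Val G Fb m) (X : Finset V) (hX : ∀ x ∈ X, 1 ≤ dF m x) {u v : V}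
    (cu : Cl Fb u) (cv : Cl Fb v) (ha : (rest G m).Adj u v) {i : Bool} (mu : m i u = u)
    (mv : m i v = v) :
    ∃ m', Val G Fb m' ∧ (∀ x ∈ X, 1 ≤ dF m' x) ∧ Phi Fb m < Phi Fb m' := by
  have hauv : G.Adj u v := ha.1
  have huv : u ≠ v := hauv.ne
  have hV := val_add h hauv (cu i) (cv i) mu mv (ha.2 (!i)).1
  obtain ⟨h1, h2, h3⟩ := dF_add huv mu mv
  refine ⟨add m i u v, hV, ?_, ?_⟩
  · intro x hx
    by_cases hxu : x = u
    · subst hxu; omega
    · by_cases hxv : x = v
      · subst hxv; omega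
      · rw [h3 x hxu hxv]
        exact hX x hx
  · rw [b4b_phi_two huv cu cv h1 h2 h3]
    omega

theorem b4b_phi_rem {m m' : Bool → V → V} {p p' : V} (cp : ¬ Cl Fb p)
    (h2 : dF m' p' + 1 = dF m p')
    (h3 : ∀ x, x ≠ p → x ≠ p' → dF m' x = dF m x) : Phi Fb m ≤ Phi Fb m' + 1 := by
  have key : ∀ x ∈ Finset.univ.filter (fun x => Cl Fb x),
      dF m x ≤ dF m' x + (if x = p' then 1 else 0) := by
    intro x hx
    have hx' : Cl Fb x := (Finset.mem_filter.mp hx).2
    by_cases hxp : x = p'
    · subst hxp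
      simp [h2]
    · have hxp2 : x ≠ p := by
        rintro rfl
        exact cp hx'
      rw [h3 x hxp2 hxp]
      simp
  unfold Phi
  refine (Finset.sum_le_sum key).trans ?_
  rw [Finset.sum_add_distrib, Finset.sum_ite_eq']
  split_ifs <;> omega

theorem b4b_fin {m1 : Bool → V → V} (h : Val G Fb m1) {u v : V} (cu : Cl Fb u) (cv : Cl Fb v)
    (ha : G.Adj u v) {i : Bool} (mu : m1 i u = u) (mv : m1 (!i) v = v) (hne : m1 (!i) u ≠ v)
    (T : Finset V) (huT : u ∈ T) (hvT : v ∉ T) (hT : ∀ i, ∀ x ∈ T, m1 i x ∈ T)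
    (hb : ∀ t, ∀ x ∈ T, m1 (!t) x ≠ x → ¬ Fb t x) :
    ∃ m', Val G Fb m' ∧ dF m' u = dF m1 u + 1 ∧ dF m' v = dF m1 v + 1 ∧
      ∀ x, x ≠ u → x ≠ v → dF m' x = dF m1 x := by
  have hv2 := val_swp h T hT hb
  have hu2 : swp m1 T (!i) u = u := by
    unfold swp
    rw [if_pos huT, Bool.not_not]
    exact mu
  have hv3 : swp m1 T (!i) v = v := by
    unfold swp
    rw [if_neg hvT]
    exact mv
  have hne2 : swp m1 T (!(!i)) u ≠ v := by
    unfold swp
    rw [if_pos huT, Bool.not_not]
    exact hne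
  have huv : u ≠ v := ha.ne
  refine ⟨add (swp m1 T) (!i) u v, val_add hv2 ha (cu _) (cv _) hu2 hv3 hne2, ?_, ?_, ?_⟩
  · rw [(dF_add huv hu2 hv3).1, dF_swp]
  · rw [(dF_add huv hu2 hv3).2.1, dF_swp]
  · intro x hxu hxv
    rw [(dF_add huv hu2 hv3).2.2 x hxu hxv, dF_swp]

/-- three vertices of deficiency -/
theorem b4b_three {T : Finset V} (hsum : ∑ x ∈ T, (2 - dF m x) ≤ 2) {a b c : V} (ha : a ∈ T)
    (hb : b ∈ T) (hc : c ∈ T) (hab : a ≠ b) (hac : a ≠ c) (hbc : b ≠ c) (ha1 : dF m a ≤ 1)
    (hb1 : dF m b ≤ 1) : 2 ≤ dF m c := by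
  have hsub : ({a, b, c} : Finset V) ⊆ T := by
    intro x hx
    simp only [Finset.mem_insert, Finset.mem_singleton] at hx
    rcases hx with rfl | rfl | rfl <;> assumption
  have h1 := Finset.sum_le_sum_of_subset (f := fun x => 2 - dF m x) hsub
  rw [Finset.sum_insert (by simp [hab, hac]), Finset.sum_insert (by simp [hbc]),
    Finset.sum_singleton] at h1
  omega

/-- **B4b (M/L).** `u` misses `i`, `v` misses `!i`, `v` is not in the component `T` of `u`.
PROOF. Call `p` in `T` blocked for `t` if `m (!t) p ≠ p` and `Fb t p`. Then `m t p = p` (`fb`), so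
`dF m p = 1`, `p` is not clean, `p ≠ u`. Since `u` has deficiency `1` and the deficiencies of `T` sum to
at most `2`, there is at most one blocked vertex, and if there is one, all other vertices of `T`
except `u` and `p` have `dF = 2`.
CASE 1: none. `m2 = swp m T` (`val_swp`); `m2 (!i) u = m i u = u`, `m2 (!i) v = m (!i) v = v` (`v ∉ T`),
`m2 i u = m (!i) u ≠ v`. `m' = add m2 (!i) u v`. `Phi` increases by 2, nothing gets uncovered.
CASE 2: `p` blocked for `t`. `m1 = rem m (!t) p`, `T1 = T.erase p`: closed under `m1`, no vertex of `T1`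
is blocked for `m1`, `u ∈ T1`, `v ∉ T1`; `m2 = swp m1 T1`, `m' = add m2 (!i) u v` as before. `p` is not
clean and `p' = m (!t) p` loses one; `Phi m' >= Phi m - 1 + 2`. Coverage: `p` is not in `X`; if `p' ≠ u`
then `dF m p' = 2`, so `p'` remains covered; `u` and `v` are covered by the new edge. -/
theorem core_kempe (h : Val G Fb m) (X : Finset V) (hXc : ∀ x ∈ X, Cl Fb x)
    (hX : ∀ x ∈ X, 1 ≤ dF m x) {u v : V}
    (cu : Cl Fb u) (cv : Cl Fb v) (ha : (rest G m).Adj u v) {i : Bool} (mu : m i u = u)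
    (hu1 : dF m u = 1) (mv : m (!i) v = v) (T : Finset V) (huT : u ∈ T) (hvT : v ∉ T)
    (hT : ∀ i, ∀ x ∈ T, m i x ∈ T) (hsum : ∑ x ∈ T, (2 - dF m x) ≤ 2) :
    ∃ m', Val G Fb m' ∧ (∀ x ∈ X, 1 ≤ dF m' x) ∧ Phi Fb m < Phi Fb m' := by
  have hauv : G.Adj u v := ha.1
  have huv : u ≠ v := hauv.ne
  by_cases hb : ∀ t, ∀ x ∈ T, m (!t) x ≠ x → ¬ Fb t x
  · obtain ⟨m', h1, h2, h3, h4⟩ := b4b_fin h cu cv hauv mu mv (ha.2 (!i)).1 T huT hvT hT hb
    refine ⟨m', h1, ?_, ?_⟩
    · intro x hx
      by_cases hxu : x = u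
      · subst hxu; omega
      · by_cases hxv : x = v
        · subst hxv; omega
        · rw [h4 x hxu hxv]
          exact hX x hx
    · rw [b4b_phi_two huv cu cv h2 h3 h4]
      omega
  · push Not at hb
    obtain ⟨t, p, hpT, hpm, hpF⟩ := hb
    have cp : ¬ Cl Fb p := fun hc => hc t hpF
    have hpu : p ≠ u := by
      rintro rfl
      exact cp cu
    have hmtp : m t p = p := by
      by_contra hcon
      exact h.fb t p hcon hpF
    have hp1 : dF m p = 1 := by
      cases t
      · simp only [Bool.not_false] at hpm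
        simp [dF, hpm, hmtp]
      · simp only [Bool.not_true] at hpm
        simp [dF, hpm, hmtp]
    obtain ⟨m1, hm1⟩ : ∃ m1, m1 = rem m (!t) p := ⟨_, rfl⟩
    have hV1 : Val G Fb m1 := by
      rw [hm1]; exact val_rem h _ _
    obtain ⟨r1, r2, r3⟩ := dF_rem h hpm
    rw [← hm1] at r1 r2 r3
    have hrem : ∀ j x, m1 j x ≠ x → m1 j x = m j x := by
      intro j x hx
      rw [hm1] at hx ⊢
      unfold rem at hx ⊢
      split_ifs at hx ⊢ with hc
      · exact absurd rfl hx
      · rfl
    have hrem2 : ∀ j x, m j x = x → m1 j x = x := by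
      intro j x hx
      by_contra hcon
      exact hcon ((hrem j x hcon).trans hx)
    have hp'T : m (!t) p ∈ T := hT _ _ hpT
    have hcl : ∀ j, ∀ x ∈ T.erase p, m1 j x ∈ T.erase p := by
      intro j x hx
      obtain ⟨hxp, hxT⟩ := Finset.mem_erase.mp hx
      by_cases hfix : m1 j x = x
      · rw [hfix]; exact hx
      · have he := hrem j x hfix
        refine Finset.mem_erase.mpr ⟨?_, by rw [he]; exact hT j x hxT⟩
        intro hcon
        -- m1 j x = p
        have h1 : m j x = p := by rw [← he, hcon]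
        have h2 : m j p = x := by rw [← h1, h.inv]
        by_cases hjt : j = t
        · rw [hjt, hmtp] at h2
          exact hxp h2.symm
        · have hjt' : j = !t := by
            cases j <;> cases t <;> simp_all
          have : m1 j x = x := by
            rw [hm1]
            unfold rem
            rw [if_pos ⟨hjt', Or.inr (by rw [← hjt', h2])⟩]
          exact hfix this
    have hnb : ∀ s, ∀ x ∈ T.erase p, m1 (!s) x ≠ x → ¬ Fb s x := by
      intro s x hx hne hF
      obtain ⟨hxp, hxT⟩ := Finset.mem_erase.mp hx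
      have hne' : m (!s) x ≠ x := by
        rw [← hrem _ _ hne]; exact hne
      have hms : m s x = x := by
        by_contra hcon
        exact h.fb s x hcon hF
      have hx1 : dF m x = 1 := by
        cases s
        · simp only [Bool.not_false] at hne'
          simp [dF, hne', hms]
        · simp only [Bool.not_true] at hne'
          simp [dF, hne', hms]
      have hxu : x ≠ u := by
        rintro rfl
        exact cu s hF
      have := b4b_three hsum huT hpT hxT hpu.symm hxu.symm (Ne.symm hxp) (by omega) (by omega)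
      omega
    have hne : m1 (!i) u ≠ v := by
      by_cases hfix : m1 (!i) u = u
      · rw [hfix]; exact huv
      · rw [hrem _ _ hfix]
        exact (ha.2 (!i)).1
    obtain ⟨m', h1, h2, h3, h4⟩ := b4b_fin hV1 cu cv hauv (hrem2 _ _ mu) (hrem2 _ _ mv) hne
      (T.erase p) (Finset.mem_erase.mpr ⟨hpu.symm, huT⟩)
      (fun hcon => hvT (Finset.mem_of_mem_erase hcon)) hcl hnb
    refine ⟨m', h1, ?_, ?_⟩
    · intro x hx
      by_cases hxu : x = u
      · subst hxu; omega
      · by_cases hxv : x = v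
        · subst hxv; omega
        · rw [h4 x hxu hxv]
          have hxp : x ≠ p := by
            rintro rfl
            exact cp (hXc _ hx)
          by_cases hxp' : x = m (!t) p
          · have hxT : x ∈ T := by rw [hxp']; exact hp'T
            have h5 := b4b_three hsum huT hpT hxT hpu.symm (Ne.symm hxu) (Ne.symm hxp)
              (by omega) (by omega)
            rw [← hxp'] at r2
            omega
          · rw [r3 x hxp hxp']
            exact hX x hx
    · have h5 := b4b_phi_two (Fb := Fb) huv cu cv h2 h3 h4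
      have h6 := b4b_phi_rem (Fb := Fb) cp r2 r3
      omega

end H87B
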