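import Pool.Agent.Lib.H87B.B1

/-! # B6: improvements in one step -/

open Classical

namespace H87B

variable {V : Type*} [Fintype V] [DecidableEq V] {G : SimpleGraph V} {Fb : Bool → V → Prop}
  {m : Bool → V → V}

/-- the exchange: the edge from `y` to `m i y` is replaced by the edge from `y` to `v` -/
def exch (m : Bool → V → V) (i : Bool) (y v : V) : Bool → V → V := add (rem m i y) i y v

/-- **B6a (M).** PROOF. `val_rem`, `val_add` (`v` is uncovered and clean), `dF_rem`, `dF_add`. -/
theorem exch_spec (h : Val G Fb m) {v : V} (cv : Cl Fb v) (hv : dF m v = 0) {y : V} {i : Bool}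
    (ha : G.Adj v y) (hy : m i y ≠ y) :
    Val G Fb (exch m i y v) ∧ (∀ x, x ≠ v → x ≠ y → x ≠ m i y → ∀ j, exch m i y v j x = m j x) ∧
      (∀ j, j ≠ i → ∀ x, exch m i y v j x = m j x) ∧
      exch m i y v i y = v ∧ exch m i y v i v = y ∧ exch m i y v i (m i y) = m i y ∧
      dF (exch m i y v) v = 1 ∧ dF (exch m i y v) y = dF m y ∧
      dF (exch m i y v) (m i y) + 1 = dF m (m i y) := by
  have hv' : ∀ j, m j v = v := by
    intro j
    by_contra hcon
    rw [b1_dF m j, if_pos hcon] at hv
    omega
  have hyv : y ≠ v := ha.ne'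
  have hmv : m i y ≠ v := by
    intro hcon
    have := b1_sym h hcon
    rw [hv'] at this
    exact hyv this.symm
  have hne : (!i) ≠ i := by cases i <;> decide
  have r1 : rem m i y i y = y := by rw [b1_rem_i, if_pos (Or.inl rfl)]
  have r2 : rem m i y i v = v := by
    rw [b1_rem_i]
    split_ifs
    · rfl
    · exact hv' i
  have r3 : rem m i y (!i) y ≠ v := by
    rw [b1_rem_ne hne]
    intro hcon
    have := b1_sym h hcon
    rw [hv'] at this
    exact hyv this.symm
  have hV : Val G Fb (exch m i y v) :=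
    val_add (val_rem h i y) ha.symm (h.fb i y hy) (cv i) r1 r2 r3
  obtain ⟨d1, d2, d3⟩ := dF_rem h hy
  obtain ⟨e1, e2, e3⟩ := dF_add (m := rem m i y) hyv r1 r2
  refine ⟨hV, ?_, ?_, ?_, ?_, ?_, ?_, ?_, ?_⟩
  · intro x hxv hxy hxm j
    unfold exch
    by_cases hj : j = i
    · subst hj
      have hc : ¬ (x = y ∨ x = m j y) := fun hc => hc.elim hxy hxm
      rw [b1_add_i, if_neg hxy, if_neg hxv, b1_rem_i, if_neg hc]
    · rw [b1_add_ne hj, b1_rem_ne hj]
  · intro j hj x
    unfold exch
    rw [b1_add_ne hj, b1_rem_ne hj]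
  · unfold exch
    rw [b1_add_i, if_pos rfl]
  · unfold exch
    rw [b1_add_i, if_neg hyv.symm, if_pos rfl]
  · unfold exch
    rw [b1_add_i, if_neg hy, if_neg hmv, b1_rem_i, if_pos (Or.inr rfl)]
  · unfold exch
    rw [e2, d3 v hyv.symm hmv.symm, hv]
  · unfold exch
    rw [e1, d1]
  · unfold exch
    rw [e3 _ hy hmv, d2]

theorem b6_cnt_lt {X : Finset V} {m m' : Bool → V → V} (hsub : ∀ x ∈ X, 1 ≤ dF m x → 1 ≤ dF m' x)
    {v : V} (hv : v ∈ X) (hv0 : dF m v = 0) (hv1 : 1 ≤ dF m' v) : cnt X m < cnt X m' := by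
  unfold cnt
  apply Finset.card_lt_card
  refine ⟨?_, ?_⟩
  · intro x hx
    obtain ⟨hx1, hx2⟩ := Finset.mem_filter.mp hx
    exact Finset.mem_filter.mpr ⟨hx1, hsub x hx1 hx2⟩
  · intro hcon
    have := (Finset.mem_filter.mp (hcon (Finset.mem_filter.mpr ⟨hv, hv1⟩))).2
    omega

/-- **B6b (M).** PROOF. Case `a`: `v` is uncovered and clean, its neighbour `y` misses the allowed colour
`i`: `add m i v y` covers `v` and everything that was covered. Case `b`: `exch m i y v` covers `v`; only
`m i y` loses a colour, and it is not in `X` or it is covered twice. In both cases `cnt` increases. -/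
theorem no_bad_zero {X : Finset V} (hX : ∀ x ∈ X, Cl Fb x) (h : Val G Fb m)
    (hmax : ∀ m', Val G Fb m' → cnt X m' ≤ cnt X m) {v : V} (hv : v ∈ X) (hv0 : dF m v = 0) :
    ¬ Bad G Fb X m 0 v := by
  intro hb
  have cv := hX v hv
  have hv' : ∀ j, m j v = v := by
    intro j
    by_contra hcon
    rw [b1_dF m j, if_pos hcon] at hv0
    omega
  cases hb with
  | a _ y i hadj hfb hm =>
    have hV := val_add h hadj (cv i) hfb (hv' i) hm (by rw [hv']; exact hadj.ne)
    obtain ⟨e1, e2, e3⟩ := dF_add (m := m) hadj.ne (hv' i) hm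
    have := b6_cnt_lt (X := X) (m := m) (m' := add m i v y) (by
      intro x _ hx1
      by_cases hxv : x = v
      · subst hxv; omega
      · by_cases hxy : x = y
        · subst hxy; omega
        · rw [e3 x hxv hxy]; exact hx1) hv hv0 (by omega)
    have := hmax _ hV
    omega
  | b _ y i hadj hm hbad =>
    obtain ⟨hV, f1, f2, f3, f4, f5, f6, f7, f8⟩ := exch_spec h cv hv0 hadj hm
    have := b6_cnt_lt (X := X) (m := m) (m' := exch m i y v) (by
      intro x hx hx1
      by_cases hxv : x = v
      · subst hxv; omega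
      · by_cases hxy : x = y
        · subst hxy; omega
        · by_cases hxm : x = m i y
          · rcases hbad with hb1 | hb1
            · rw [hxm] at hx
              exact absurd hx hb1
            · rw [hxm]; omega
          · have : dF (exch m i y v) x = dF m x := by
              unfold dF
              rw [f1 x hxv hxy hxm, f1 x hxv hxy hxm]
            omega) hv hv0 (by omega)
    have := hmax _ hV
    omega

end H87B
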