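import Pool.Agent.Lib.H87B.B6

/-! # B7: how an alternating walk changes under an exchange -/

open Classical

namespace H87B

variable {V : Type*} [Fintype V] [DecidableEq V] {G : SimpleGraph V} {Fb : Bool → V → Prop}
  {m : Bool → V → V}

/-- **B7 (M/L).** Let `m' = exch m i y v`, `v' = m i y`.
PROOF. Induction on `n`, for all `x`. Note `v' ≠ v` and no `m j z` with `m j z ≠ z` equals `v` or has
`z = v` (`v` is uncovered).
Case `a` (`G.Adj x z`, `¬ Fb j z`, `m j z = z`): if `z = v`, then `x` is a neighbour of `v`, clean, with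
`dF m x <= 1`, so it misses an allowed colour (`exists_miss`): `Bad m 0 v`. Otherwise `m' j z = z` (for `j ≠ i`
nothing has changed; for `j = i`: `z ≠ y`, and `m' i v' = v'`): `Bad m' 0 x`.
Case `b` (`G.Adj x z`, `m j z ≠ z`, `m j z` bad): `m j z ≠ v'` since `v' ∈ X`, `dF m v' <= 1`. If `z = v'` then `z`
is clean and misses a colour: we are in case `a` with `z ≠ v`. If `z = y` then `j ≠ i` and `m' j y = m j y`.
Otherwise `m' j z = m j z`. So `m' j z = m j z` and it is still bad (`dF m' >= dF m` at all vertices
except `v'`).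
Case `s` (`G.Adj x z`, `m j z ≠ z`, `Bad m n (m j z)`): let `x' = m j z`. If `x' ∉ X` or `2 <= dF m x'` we are in
case `b`. If `x' = v'`: third alternative (`n < n+1`). If `z = v'`: case `a` as before. Otherwise
`m' j z = x'` as in case `b`; induction hypothesis for `x'` and `Bad.s`. -/
theorem bad_exch {X : Finset V} (hX : ∀ x ∈ X, Cl Fb x) (h : Val G Fb m) {v : V} (hv : v ∈ X)
    (hv0 : dF m v = 0) {y : V} {i : Bool} (ha : G.Adj v y) (hy : m i y ≠ y) (hy' : m i y ∈ X)
    (hy1 : dF m (m i y) ≤ 1) : ∀ (n : ℕ) (x : V), x ∈ X → dF m x ≤ 1 → Bad G Fb X m n x →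
      (∃ k ≤ n, Bad G Fb X (exch m i y v) k x) ∨ (∃ k ≤ n, Bad G Fb X m k v) ∨
        ∃ k < n, Bad G Fb X m k (m i y) := by
  have cv := hX v hv
  have hv' : ∀ j, m j v = v := by
    intro j
    by_contra hcon
    rw [b1_dF m j, if_pos hcon] at hv0
    omega
  obtain ⟨hV, f1, f2, f3, f4, f5, f6, f7, f8⟩ := exch_spec h cv hv0 ha hy
  have hv'v : m i y ≠ v := by
    intro hcon
    have := b1_sym h hcon
    rw [hv'] at this
    exact ha.ne this
  -- a vertex of `X` covered at most once gives a bad walk of length zero to its neighbours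
  have hmiss : ∀ x z, G.Adj x z → z ∈ X → dF m z ≤ 1 → ∃ j, ¬ Fb j z ∧ m j z = z := by
    intro x z _ hz hz1
    obtain ⟨j, hj⟩ := exists_miss (m := m) z hz1
    exact ⟨j, hX z hz j, hj⟩
  -- case a
  have caseA : ∀ x z j, x ∈ X → dF m x ≤ 1 → G.Adj x z → ¬ Fb j z → m j z = z →
      Bad G Fb X (exch m i y v) 0 x ∨ Bad G Fb X m 0 v := by
    intro x z j hx hx1 hxz hfb hmz
    by_cases hzv : z = v
    · right
      rw [hzv] at hxz
      obtain ⟨k, hk1, hk2⟩ := hmiss v x hxz.symm hx hx1
      exact Bad.a v x k hxz.symm hk1 hk2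
    · left
      refine Bad.a x z j hxz hfb ?_
      by_cases hj : j = i
      · subst hj
        have hzy : z ≠ y := by
          rintro rfl
          exact hy hmz
        by_cases hzm : z = m j y
        · rw [hzm]; exact f5
        · rw [f1 z hzv hzy hzm]; exact hmz
      · rw [f2 j hj]; exact hmz
  -- persistence of an edge
  have pers : ∀ x z j, x ∈ X → dF m x ≤ 1 → G.Adj x z → m j z ≠ z → m j z ≠ m i y →
      (exch m i y v j z = m j z ∨ Bad G Fb X (exch m i y v) 0 x ∨ Bad G Fb X m 0 v) := by
    intro x z j hx hx1 hxz hmz hmz'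
    by_cases hzv : z = v
    · rw [hzv] at hmz
      exact absurd (hv' j) hmz
    · by_cases hzm : z = m i y
      · right
        obtain ⟨k, hk1, hk2⟩ := hmiss x z hxz (by rw [hzm]; exact hy') (by rw [hzm]; exact hy1)
        exact caseA x z k hx hx1 hxz hk1 hk2
      · left
        by_cases hzy : z = y
        · by_cases hj : j = i
          · subst hj
            rw [hzy] at hmz'
            exact absurd rfl hmz'
          · exact f2 j hj z
        · exact f1 z hzv hzy hzm j
  -- degrees
  have hdeg : ∀ x, x ≠ m i y → dF m x ≤ dF (exch m i y v) x := by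
    intro x hxm
    by_cases hxv : x = v
    · subst hxv; omega
    · by_cases hxy : x = y
      · subst hxy; omega
      · have : dF (exch m i y v) x = dF m x := by
          unfold dF
          rw [f1 x hxv hxy hxm, f1 x hxv hxy hxm]
        omega
  -- case b
  have caseB : ∀ x z j, x ∈ X → dF m x ≤ 1 → G.Adj x z → m j z ≠ z →
      (m j z ∉ X ∨ 2 ≤ dF m (m j z)) →
      Bad G Fb X (exch m i y v) 0 x ∨ Bad G Fb X m 0 v := by
    intro x z j hx hx1 hxz hmz hbad
    have hne : m j z ≠ m i y := by
      intro hcon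
      rw [hcon] at hbad
      rcases hbad with hb | hb
      · exact hb hy'
      · omega
    rcases pers x z j hx hx1 hxz hmz hne with hp | hp
    · left
      refine Bad.b x z j hxz (by rw [hp]; exact hmz) ?_
      rw [hp]
      rcases hbad with hb | hb
      · exact Or.inl hb
      · right
        have := hdeg _ hne
        omega
    · exact hp
  intro n
  induction n with
  | zero =>
    intro x hx hx1 hb
    cases hb with
    | a _ z j hxz hfb hmz =>
      rcases caseA x z j hx hx1 hxz hfb hmz with hc | hc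
      · exact Or.inl ⟨0, le_refl _, hc⟩
      · exact Or.inr (Or.inl ⟨0, le_refl _, hc⟩)
    | b _ z j hxz hmz hbad =>
      rcases caseB x z j hx hx1 hxz hmz hbad with hc | hc
      · exact Or.inl ⟨0, le_refl _, hc⟩
      · exact Or.inr (Or.inl ⟨0, le_refl _, hc⟩)
  | succ n ih =>
    intro x hx hx1 hb
    cases hb with
    | s _ _ z j hxz hmz hbad =>
      by_cases hc1 : m j z ∉ X ∨ 2 ≤ dF m (m j z)
      · rcases caseB x z j hx hx1 hxz hmz hc1 with hc | hc
        · exact Or.inl ⟨0, by omega, hc⟩
        · exact Or.inr (Or.inl ⟨0, by omega, hc⟩)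
      · have hc2 : m j z ∈ X ∧ dF m (m j z) ≤ 1 := by
          constructor
          · by_contra hcon
            exact hc1 (Or.inl hcon)
          · by_contra hcon
            exact hc1 (Or.inr (by omega))
        by_cases hne : m j z = m i y
        · rw [hne] at hbad
          exact Or.inr (Or.inr ⟨n, by omega, hbad⟩)
        · rcases pers x z j hx hx1 hxz hmz hne with hp | hp | hp
          · rcases ih (m j z) hc2.1 hc2.2 hbad with ⟨k, hk, hk2⟩ | ⟨k, hk, hk2⟩ | ⟨k, hk, hk2⟩
            · left
              refine ⟨k + 1, by omega, Bad.s k x z j hxz (by rw [hp]; exact hmz) ?_⟩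
              rw [hp]
              exact hk2
            · exact Or.inr (Or.inl ⟨k, by omega, hk2⟩)
            · exact Or.inr (Or.inr ⟨k, by omega, hk2⟩)
          · exact Or.inl ⟨0, by omega, hp⟩
          · exact Or.inr (Or.inl ⟨0, by omega, hp⟩)

end H87B
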