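import Pool.Agent.Lib.H87B.Defs

/-! # C1: degrees in a linear hypergraph -/

open Classical

namespace H87B

variable {V : Type*} [Fintype V] [DecidableEq V] {H : Finset (Finset V)}

/-- **C1 (M).** The sets `B \ {v}`, `B` in `F`, are disjoint subsets of `N[v] \ {v}`. -/
theorem sum_le_nbd (hL : Lin H) (v : V) (F : Finset (Finset V)) (hF : F ⊆ H)
    (hv : ∀ B ∈ F, v ∈ B) : ∑ B ∈ F, (B.card - 1) ≤ (nbd H v).card - 1 := by
  by_cases hFe : F = ∅
  · rw [hFe]
    simp
  have hvn : v ∈ nbd H v := by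
    obtain ⟨B, hB⟩ := Finset.nonempty_iff_ne_empty.mpr hFe
    exact Finset.mem_biUnion.mpr ⟨B, Finset.mem_filter.mpr ⟨hF hB, hv B hB⟩, hv B hB⟩
  have h1 : ∑ B ∈ F, (B.card - 1) = (F.biUnion (fun B => B.erase v)).card := by
    rw [Finset.card_biUnion]
    · refine Finset.sum_congr rfl fun B hB => ?_
      rw [Finset.card_erase_of_mem (hv B hB)]
    · intro B hB B' hB' hne
      rw [Function.onFun, Finset.disjoint_left]
      intro x hx hx'
      obtain ⟨h2, h3⟩ := Finset.mem_erase.mp hx
      obtain ⟨h4, h5⟩ := Finset.mem_erase.mp hx'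
      have h6 : ({v, x} : Finset V) ⊆ B ∩ B' := by
        intro y hy
        rcases Finset.mem_insert.mp hy with rfl | hy
        · exact Finset.mem_inter.mpr ⟨hv B hB, hv B' hB'⟩
        · rw [Finset.mem_singleton.mp hy]
          exact Finset.mem_inter.mpr ⟨h3, h5⟩
      have h7 := Finset.card_le_card h6
      rw [Finset.card_pair (Ne.symm h2)] at h7
      have h8 := hL.2 B (hF hB) B' (hF hB') hne
      omega
  rw [h1, ← Finset.card_erase_of_mem hvn]
  apply Finset.card_le_card
  intro x hx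
  obtain ⟨B, hB, hxB⟩ := Finset.mem_biUnion.mp hx
  obtain ⟨h2, h3⟩ := Finset.mem_erase.mp hxB
  exact Finset.mem_erase.mpr ⟨h2, Finset.mem_biUnion.mpr
    ⟨B, Finset.mem_filter.mpr ⟨hF hB, hv B hB⟩, h3⟩⟩

/-- the edges of size two through `v` -/
theorem c1_pairs (v : V) : (H.filter (fun B => v ∈ B ∧ B.card = 2)).card = dg (gr H) v := by
  unfold dg
  have h1 : H.filter (fun B => v ∈ B ∧ B.card = 2) =
      (Finset.univ.filter (fun w => (gr H).Adj v w)).image (fun w => ({v, w} : Finset V)) := by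
    ext B
    simp only [Finset.mem_filter, Finset.mem_image, Finset.mem_univ, true_and]
    constructor
    · rintro ⟨hB, hv, h2⟩
      obtain ⟨x, y, hxy, rfl⟩ := Finset.card_eq_two.mp h2
      rcases Finset.mem_insert.mp hv with rfl | hv
      · exact ⟨y, ⟨hxy, hB⟩, rfl⟩
      · have hvy := Finset.mem_singleton.mp hv
        subst hvy
        refine ⟨x, ⟨hxy.symm, ?_⟩, Finset.pair_comm _ _⟩
        rw [Finset.pair_comm]
        exact hB
    · rintro ⟨w, ⟨h1, h2⟩, rfl⟩
      exact ⟨h2, Finset.mem_insert_self _ _, Finset.card_pair h1⟩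
  rw [h1, Finset.card_image_of_injOn]
  intro w hw w' hw' heq
  have hw1 : v ≠ w := ((Finset.mem_filter.mp (Finset.mem_coe.mp hw)).2).1
  simp only at heq
  have h2 : w ∈ ({v, w'} : Finset V) := by
    rw [← heq]
    exact Finset.mem_insert_of_mem (Finset.mem_singleton_self _)
  rcases Finset.mem_insert.mp h2 with h3 | h3
  · exact absurd h3.symm hw1
  · exact Finset.mem_singleton.mp h3

/-- general form: the pairs through `v` and a set `F` of large edges through `v` -/
theorem c1_gen (hL : Lin H) (v : V) (F : Finset (Finset V)) (hF : F ⊆ H)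
    (hv : ∀ B ∈ F, v ∈ B) (h3 : ∀ B ∈ F, 3 ≤ B.card) :
    dg (gr H) v + ∑ B ∈ F, (B.card - 1) ≤ (nbd H v).card - 1 := by
  have h1 := sum_le_nbd hL v (H.filter (fun B => v ∈ B ∧ B.card = 2) ∪ F) (by
    intro B hB
    rcases Finset.mem_union.mp hB with h | h
    · exact (Finset.mem_filter.mp h).1
    · exact hF h) (by
    intro B hB
    rcases Finset.mem_union.mp hB with h | h
    · exact (Finset.mem_filter.mp h).2.1
    · exact hv B h)
  rw [Finset.sum_union] at h1
  · have h2 : ∑ B ∈ H.filter (fun B => v ∈ B ∧ B.card = 2), (B.card - 1) = dg (gr H) v := by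
      rw [← c1_pairs (H := H) v, Finset.card_eq_sum_ones]
      refine Finset.sum_congr rfl fun B hB => ?_
      rw [(Finset.mem_filter.mp hB).2.2]
    rw [h2] at h1
    exact h1
  · rw [Finset.disjoint_left]
    intro B hB hB'
    have := (Finset.mem_filter.mp hB).2.2
    have := h3 B hB'
    omega

/-- PROOF. `w -> {v,w}` is injective from the neighbours of `v` in `gr H` to the edges of size two
through `v`; `sum_le_nbd`. If `v` lies in no edge then `dg (gr H) v = 0`. -/
theorem dg_le (hL : Lin H) {D : ℕ} (hD : ∀ v, (nbd H v).card ≤ D) (v : V) :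
    dg (gr H) v ≤ D - 1 := by
  have h1 := c1_gen hL v ∅ (Finset.empty_subset _) (by simp) (by simp)
  have h2 := hD v
  simp only [Finset.sum_empty, add_zero] at h1
  omega

theorem dg_le_one (hL : Lin H) {D : ℕ} (hD : ∀ v, (nbd H v).card ≤ D) {v : V} {A : Finset V}
    (hA : A ∈ H) (hA3 : 3 ≤ A.card) (hv : v ∈ A) : dg (gr H) v + A.card ≤ D := by
  have h1 := c1_gen hL v {A} (Finset.singleton_subset_iff.mpr hA)
    (fun B hB => by rw [Finset.mem_singleton.mp hB]; exact hv)
    (fun B hB => by rw [Finset.mem_singleton.mp hB]; exact hA3)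
  have h2 := hD v
  rw [Finset.sum_singleton] at h1
  have h3 : 0 < (nbd H v).card := Finset.card_pos.mpr
    ⟨v, Finset.mem_biUnion.mpr ⟨A, Finset.mem_filter.mpr ⟨hA, hv⟩, hv⟩⟩
  omega

theorem dg_le_two (hL : Lin H) {D : ℕ} (hD : ∀ v, (nbd H v).card ≤ D) {v : V} {A B : Finset V}
    (hA : A ∈ H) (hA3 : 3 ≤ A.card) (hv : v ∈ A) (hB : B ∈ H) (hB3 : 3 ≤ B.card) (hvB : v ∈ B)
    (hAB : A ≠ B) : dg (gr H) v + A.card + B.card ≤ D + 1 := by
  have h1 := c1_gen hL v {A, B} (by
      intro C hC
      rcases Finset.mem_insert.mp hC with rfl | h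
      · exact hA
      · rw [Finset.mem_singleton.mp h]; exact hB)
    (by
      intro C hC
      rcases Finset.mem_insert.mp hC with rfl | h
      · exact hv
      · rw [Finset.mem_singleton.mp h]; exact hvB)
    (by
      intro C hC
      rcases Finset.mem_insert.mp hC with rfl | h
      · exact hA3
      · rw [Finset.mem_singleton.mp h]; exact hB3)
  have h2 := hD v
  rw [Finset.sum_pair hAB] at h1
  have h3 : 0 < (nbd H v).card := Finset.card_pos.mpr
    ⟨v, Finset.mem_biUnion.mpr ⟨A, Finset.mem_filter.mpr ⟨hA, hv⟩, hv⟩⟩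
  omega

/-- the number of other edges through a vertex of `A` -/
theorem others_le (hL : Lin H) {D : ℕ} (hD : ∀ v, (nbd H v).card ≤ D) {v : V} {A : Finset V}
    (hA : A ∈ H) (hv : v ∈ A) :
    ((H.erase A).filter (fun B => v ∈ B)).card + A.card ≤ D := by
  have h1 := sum_le_nbd hL v (H.filter (fun B => v ∈ B)) (Finset.filter_subset _ _)
    (fun B hB => (Finset.mem_filter.mp hB).2)
  have hmem : A ∈ H.filter (fun B => v ∈ B) := Finset.mem_filter.mpr ⟨hA, hv⟩
  rw [← Finset.sum_erase_add _ _ hmem] at h1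
  have h2 : ((H.erase A).filter (fun B => v ∈ B)).card ≤
      ∑ B ∈ (H.filter (fun B => v ∈ B)).erase A, (B.card - 1) := by
    have h3 : (H.erase A).filter (fun B => v ∈ B) = (H.filter (fun B => v ∈ B)).erase A := by
      ext B
      simp only [Finset.mem_filter, Finset.mem_erase]
      tauto
    rw [h3, Finset.card_eq_sum_ones]
    refine Finset.sum_le_sum fun B hB => ?_
    have := hL.1 B (Finset.mem_filter.mp (Finset.mem_of_mem_erase hB)).1
    omega
  have h4 := hD v
  have h5 := hL.1 A hA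
  omega

/-- the same if one of them has size at least three.  PROOF. With `B'` the large one and `r` further
edges, `sum_le_nbd` gives `(|A| - 1) + (|B'| - 1) + r + 1 <= D`. -/
theorem others_le' (hL : Lin H) {D : ℕ} (hD : ∀ v, (nbd H v).card ≤ D) {v : V}
    {A B : Finset V} (hA : A ∈ H) (hv : v ∈ A) (hB : B ∈ H) (hvB : v ∈ B) (hB3 : 3 ≤ B.card)
    (hAB : A ≠ B) : ((H.erase A).filter (fun B => v ∈ B)).card + A.card + 1 ≤ D := by
  have h1 := sum_le_nbd hL v (H.filter (fun B => v ∈ B)) (Finset.filter_subset _ _)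
    (fun B hB => (Finset.mem_filter.mp hB).2)
  have hmem : A ∈ H.filter (fun B => v ∈ B) := Finset.mem_filter.mpr ⟨hA, hv⟩
  have hmem2 : B ∈ (H.filter (fun B => v ∈ B)).erase A :=
    Finset.mem_erase.mpr ⟨hAB.symm, Finset.mem_filter.mpr ⟨hB, hvB⟩⟩
  rw [← Finset.sum_erase_add _ _ hmem, ← Finset.sum_erase_add _ _ hmem2] at h1
  have h3 : (H.erase A).filter (fun B => v ∈ B) = (H.filter (fun B => v ∈ B)).erase A := by
    ext B
    simp only [Finset.mem_filter, Finset.mem_erase]
    tauto
  have h2 : (((H.filter (fun B => v ∈ B)).erase A).erase B).card ≤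
      ∑ B ∈ ((H.filter (fun B => v ∈ B)).erase A).erase B, (B.card - 1) := by
    rw [Finset.card_eq_sum_ones]
    refine Finset.sum_le_sum fun C hC => ?_
    have := hL.1 C (Finset.mem_filter.mp (Finset.mem_of_mem_erase
      (Finset.mem_of_mem_erase hC))).1
    omega
  rw [Finset.card_erase_of_mem hmem2] at h2
  have h4 := hD v
  have h5 := hL.1 A hA
  have h6 := Finset.card_pos.mpr ⟨_, hmem2⟩
  rw [h3]
  omega

end H87B
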