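import Pool.Agent.Lib.H87B.B10
import Pool.Agent.Lib.H87B.C1

/-! # C2: Theorem A, large edges forming two matchings -/

open Classical

namespace H87B

variable {V : Type*} [Fintype V] [DecidableEq V] {H : Finset (Finset V)}

theorem c2_pair {A : Finset V} (hA : A ∈ H) (h2 : A.card = 2) {u : V} (hu : u ∈ A) :
    ∃ v, A = {u, v} ∧ (gr H).Adj u v := by
  obtain ⟨x, y, hxy, rfl⟩ := Finset.card_eq_two.mp h2
  rcases Finset.mem_insert.mp hu with rfl | hu
  · exact ⟨y, rfl, hxy, hA⟩
  · have huy := Finset.mem_singleton.mp hu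
    subst huy
    refine ⟨x, Finset.pair_comm _ _, hxy.symm, ?_⟩
    rw [Finset.pair_comm]
    exact hA

/-- the colour of a pair -/
noncomputable def c2_pc (col : V → V → ℕ) (A : Finset V) : ℕ :=
  if h : ∃ p : V × V, p.1 ≠ p.2 ∧ A = {p.1, p.2} then col h.choose.1 h.choose.2 else 0

theorem c2_pc_eq {col : V → V → ℕ} {S : Finset ℕ} (hc : IsCol (gr H) S col) {u v : V}
    (h : (gr H).Adj u v) : c2_pc col {u, v} = col u v := by
  have hex : ∃ p : V × V, p.1 ≠ p.2 ∧ ({u, v} : Finset V) = {p.1, p.2} := ⟨(u, v), h.1, rfl⟩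
  unfold c2_pc
  rw [dif_pos hex]
  obtain ⟨h1, h2⟩ := hex.choose_spec
  obtain ⟨a, ha⟩ : ∃ a, a = hex.choose.1 := ⟨_, rfl⟩
  obtain ⟨b, hb⟩ : ∃ b, b = hex.choose.2 := ⟨_, rfl⟩
  rw [← ha, ← hb] at h1 h2 ⊢
  have hu : u ∈ ({a, b} : Finset V) := by rw [← h2]; simp
  have hv : v ∈ ({a, b} : Finset V) := by rw [← h2]; simp
  have huv := h.1
  rcases Finset.mem_insert.mp hu with h3 | h3
  · rcases Finset.mem_insert.mp hv with h4 | h4
    · exact absurd (h3.trans h4.symm) huv
    · rw [h3, Finset.mem_singleton.mp h4]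
  · have h3' := Finset.mem_singleton.mp h3
    rcases Finset.mem_insert.mp hv with h4 | h4
    · rw [← h3', ← h4]
      exact (hc.sy u v h).symm
    · exact absurd (h3'.trans (Finset.mem_singleton.mp h4).symm) huv

/-- **C2 (M/L).** THEOREM A. `H` linear, all `|N[v]| <= D`, the edges of size at least three are
contained in `C1 ∪ C2` with `C1`, `C2` consisting of pairwise disjoint sets, and for every vertex `x` and
every edge `A` of size at least three the number of neighbours (by edges of size two) of `x` which lie in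
two edges of size at least three is less than `|A|`. Then `H` is `D`-edge-colourable.
PROOF. If `H` is empty: trivial. Otherwise `D >= 2`; `K = D - 2`. `G = gr H`, `Fb true x` iff `x` lies in a
member of `C1` which is in `H` and of size `>= 3`; `Fb false x` iff `x` lies in a member of `H` of size `>= 3`
which is not in `C1` (so in `C2`). `dg_le`, `dg_le_one` give `hc` and `hs` of `graph_col`. A vertex with both
`Fb` lies in two different large edges. The number `q`: if no vertex has both, `q = D - 1`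
(`h1`: all neighbours count; `h2`: clean `y` has degree `<= D - 1 <= 2 q`, other `y` have degree
`<= D - 3`). Otherwise let `a` be the least size of a large edge and `q = D - a`; a vertex in two large
edges gives `2 a <= D + 1` (`dg_le_two`), so `q >= a - 1 >= 2` and `2 q >= D - 1`; `h1`: at least
`D - 1 - (a - 1)` neighbours do not have both; `h2`: clean `y`: `D - 1 <= 2 q`; `y` in one large edge:
`dg <= D - |A| <= q`. Let `col` be the colouring of `graph_col`; colour the edge `{u,v}` by `col u v`, the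
large edges in `C1` by `0` and the others by `1`. (An edge of size two is `{u,v}` with `G.Adj u v`; define
the colour of `A` of size two by choice of `u`, `v` and `sy`.) -/
theorem theoremA (hL : Lin H) (D : ℕ) (hD : ∀ v, (nbd H v).card ≤ D) (C1 C2 : Finset (Finset V))
    (hC : ∀ A ∈ H, 3 ≤ A.card → A ∈ C1 ∪ C2)
    (h1 : ∀ A ∈ C1, ∀ B ∈ C1, A ≠ B → Disjoint A B)
    (h2 : ∀ A ∈ C2, ∀ B ∈ C2, A ≠ B → Disjoint A B)
    (hW : ∀ x, ∀ A ∈ H, 3 ≤ A.card → (Finset.univ.filter (fun w => (gr H).Adj x w ∧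
      ∃ B ∈ H, ∃ B' ∈ H, B ≠ B' ∧ 3 ≤ B.card ∧ 3 ≤ B'.card ∧ w ∈ B ∧ w ∈ B')).card < A.card) :
    HCol H D := by
  by_cases hH : H = ∅
  · subst hH
    exact ⟨fun _ => 0, fun A hA => absurd hA (Finset.notMem_empty _),
      fun A hA => absurd hA (Finset.notMem_empty _)⟩
  have hD2 : 2 ≤ D := by
    obtain ⟨e, he⟩ := Finset.nonempty_iff_ne_empty.mpr hH
    have h3 := hL.1 e he
    obtain ⟨v, hv⟩ := Finset.card_pos.mp (by omega : 0 < e.card)
    have h4 : e ⊆ nbd H v := by
      intro x hx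
      exact Finset.mem_biUnion.mpr ⟨e, Finset.mem_filter.mpr ⟨he, hv⟩, hx⟩
    have h5 := Finset.card_le_card h4
    have h6 := hD v
    omega
  obtain ⟨K, hK⟩ : ∃ K, D = K + 2 := ⟨D - 2, by omega⟩
  obtain ⟨Fb, hFt, hFf⟩ : ∃ Fb : Bool → V → Prop,
      (∀ x, Fb true x ↔ ∃ A ∈ H, 3 ≤ A.card ∧ A ∈ C1 ∧ x ∈ A) ∧
      (∀ x, Fb false x ↔ ∃ A ∈ H, 3 ≤ A.card ∧ A ∉ C1 ∧ x ∈ A) := by
    refine ⟨fun i x => if i = true then (∃ A ∈ H, 3 ≤ A.card ∧ A ∈ C1 ∧ x ∈ A) else
      (∃ A ∈ H, 3 ≤ A.card ∧ A ∉ C1 ∧ x ∈ A), fun x => by simp, fun x => by simp⟩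
  have hncl : ∀ x, ¬ Cl Fb x → ∃ A ∈ H, 3 ≤ A.card ∧ x ∈ A := by
    intro x hx
    unfold Cl at hx
    push Not at hx
    obtain ⟨i, hi⟩ := hx
    cases i
    · obtain ⟨A, h3, h4, _, h5⟩ := (hFf x).mp hi
      exact ⟨A, h3, h4, h5⟩
    · obtain ⟨A, h3, h4, _, h5⟩ := (hFt x).mp hi
      exact ⟨A, h3, h4, h5⟩
  have hc : ∀ x, Cl Fb x → dg (gr H) x ≤ K + 1 := by
    intro x _
    have := dg_le hL hD x
    omega
  have hs : ∀ x, ¬ Cl Fb x → dg (gr H) x + 1 ≤ K := by
    intro x hx
    obtain ⟨A, h3, h4, h5⟩ := hncl x hx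
    have := dg_le_one hL hD h3 h4 h5
    omega
  -- the number q
  obtain ⟨q, hq, hq1, hq2⟩ : ∃ q, 1 ≤ q ∧
      (∀ x, Cl Fb x → dg (gr H) x = K + 1 →
        q ≤ (Finset.univ.filter (fun y => (gr H).Adj x y ∧ ∃ i, ¬ Fb i y)).card) ∧
      (∀ y, (∃ i, ¬ Fb i y) →
        dg (gr H) y ≤ q * ((Finset.univ : Finset Bool).filter (fun i => ¬ Fb i y)).card) := by
    have hone : ∀ y, (∃ i, ¬ Fb i y) →
        1 ≤ ((Finset.univ : Finset Bool).filter (fun i => ¬ Fb i y)).card := by
      rintro y ⟨i, hi⟩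
      exact Finset.card_pos.mpr ⟨i, Finset.mem_filter.mpr ⟨Finset.mem_univ _, hi⟩⟩
    by_cases hW0 : ∃ w, Fb true w ∧ Fb false w
    · obtain ⟨w, hw1, hw2⟩ := hW0
      obtain ⟨A, hA, hA3, hA1, hwA⟩ := (hFt w).mp hw1
      obtain ⟨B, hB, hB3, hB1, hwB⟩ := (hFf w).mp hw2
      have hAB : A ≠ B := by
        rintro rfl
        exact hB1 hA1
      obtain ⟨A0, hA0, hmin⟩ := Finset.exists_min_image (H.filter (fun A => 3 ≤ A.card))
        (fun A => A.card) ⟨A, Finset.mem_filter.mpr ⟨hA, hA3⟩⟩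
      obtain ⟨hA0H, hA03⟩ := Finset.mem_filter.mp hA0
      have h3 := dg_le_two hL hD hA hA3 hwA hB hB3 hwB hAB
      have h4 := hmin A (Finset.mem_filter.mpr ⟨hA, hA3⟩)
      have h5 := hmin B (Finset.mem_filter.mpr ⟨hB, hB3⟩)
      refine ⟨D - A0.card, by omega, ?_, ?_⟩
      · intro x _ hx
        have h6 := hW x A0 hA0H hA03
        have h7 : (Finset.univ.filter (fun y => (gr H).Adj x y)).card ≤
            (Finset.univ.filter (fun y => (gr H).Adj x y ∧ ∃ i, ¬ Fb i y)).card +
            (Finset.univ.filter (fun w => (gr H).Adj x w ∧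
              ∃ B ∈ H, ∃ B' ∈ H, B ≠ B' ∧ 3 ≤ B.card ∧ 3 ≤ B'.card ∧ w ∈ B ∧ w ∈ B')).card := by
          refine le_trans (Finset.card_le_card ?_) (Finset.card_union_le _ _)
          intro y hy
          have hy' := (Finset.mem_filter.mp hy).2
          by_cases h8 : ∃ i, ¬ Fb i y
          · exact Finset.mem_union_left _ (Finset.mem_filter.mpr ⟨Finset.mem_univ _, hy', h8⟩)
          · push Not at h8
            obtain ⟨B1, b1, b2, b3, b4⟩ := (hFt y).mp (h8 true)
            obtain ⟨B2, b5, b6, b7, b8⟩ := (hFf y).mp (h8 false)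
            refine Finset.mem_union_right _ (Finset.mem_filter.mpr ⟨Finset.mem_univ _, hy',
              B1, b1, B2, b5, ?_, b2, b6, b4, b8⟩)
            rintro rfl
            exact b7 b3
        unfold dg at hx
        rw [hx] at h7
        omega
      · intro y hy
        have h6 := hone y hy
        by_cases hcl : Cl Fb y
        · have h7 : ((Finset.univ : Finset Bool).filter (fun i => ¬ Fb i y)) = Finset.univ := by
            rw [Finset.filter_eq_self]
            intro i _
            exact hcl i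
          rw [h7]
          have h8 := dg_le hL hD y
          have h9 : (Finset.univ : Finset Bool).card = 2 := by decide
          rw [h9]
          omega
        · obtain ⟨E, e1, e2, e3⟩ := hncl y hcl
          have h7 := dg_le_one hL hD e1 e2 e3
          have h8 := hmin E (Finset.mem_filter.mpr ⟨e1, e2⟩)
          calc dg (gr H) y ≤ (D - A0.card) * 1 := by omega
            _ ≤ _ := Nat.mul_le_mul_left _ h6
    · push Not at hW0
      have hall : ∀ y, ∃ i, ¬ Fb i y := by
        intro y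
        by_cases h3 : Fb true y
        · exact ⟨false, hW0 y h3⟩
        · exact ⟨true, h3⟩
      refine ⟨K + 1, by omega, ?_, ?_⟩
      · intro x _ hx
        rw [← hx]
        unfold dg
        apply Finset.card_le_card
        intro y hy
        exact Finset.mem_filter.mpr ⟨Finset.mem_univ _, (Finset.mem_filter.mp hy).2, hall y⟩
      · intro y hy
        have h6 := hone y hy
        have h7 := dg_le hL hD y
        calc dg (gr H) y ≤ (K + 1) * 1 := by omega
          _ ≤ _ := Nat.mul_le_mul_left _ h6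
  obtain ⟨col, hcol, hforb⟩ := graph_col K q hc hs hq hq1 hq2
  have hcol2 : ∀ A ∈ H, ¬ 3 ≤ A.card → ∀ u ∈ A, ∃ v, A = {u, v} ∧ (gr H).Adj u v ∧
      c2_pc col A = col u v := by
    intro A hA h3 u hu
    have h2 := hL.1 A hA
    obtain ⟨v, hv1, hv2⟩ := c2_pair hA (by omega) hu
    exact ⟨v, hv1, hv2, by rw [hv1]; exact c2_pc_eq hcol hv2⟩
  refine ⟨fun A => if 3 ≤ A.card then (if A ∈ C1 then 0 else 1) else c2_pc col A, ?_, ?_⟩
  · intro A hA
    by_cases h3 : 3 ≤ A.card
    · simp only [if_pos h3]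
      split_ifs <;> omega
    · simp only [if_neg h3]
      have h2 := hL.1 A hA
      obtain ⟨u, hu⟩ := Finset.card_pos.mp (by omega : 0 < A.card)
      obtain ⟨v, _, hv2, hv3⟩ := hcol2 A hA h3 u hu
      rw [hv3, hK]
      exact Finset.mem_range.mp (hcol.mem u v hv2)
  · -- properness
    have hmix : ∀ A ∈ H, ∀ B ∈ H, 3 ≤ A.card → ¬ 3 ≤ B.card → (A ∩ B).Nonempty →
        (if A ∈ C1 then 0 else 1) ≠ c2_pc col B := by
      intro A hA B hB h3 h4 hmeet
      obtain ⟨u, hu⟩ := hmeet
      obtain ⟨huA, huB⟩ := Finset.mem_inter.mp hu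
      obtain ⟨v, _, hv2, hv3⟩ := hcol2 B hB h4 u huB
      rw [hv3]
      by_cases h5 : A ∈ C1
      · rw [if_pos h5]
        exact ((hforb u v hv2).1 ((hFt u).mpr ⟨A, hA, h3, h5, huA⟩)).symm
      · rw [if_neg h5]
        exact ((hforb u v hv2).2 ((hFf u).mpr ⟨A, hA, h3, h5, huA⟩)).symm
    intro A hA B hB hAB hmeet
    by_cases hA3 : 3 ≤ A.card
    · by_cases hB3 : 3 ≤ B.card
      · simp only [if_pos hA3, if_pos hB3]
        have hnd : ¬ Disjoint A B := by
          rw [Finset.disjoint_iff_inter_eq_empty]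
          exact Finset.nonempty_iff_ne_empty.mp hmeet
        by_cases hA1 : A ∈ C1
        · by_cases hB1 : B ∈ C1
          · exact absurd (h1 A hA1 B hB1 hAB) hnd
          · rw [if_pos hA1, if_neg hB1]; omega
        · by_cases hB1 : B ∈ C1
          · rw [if_neg hA1, if_pos hB1]; omega
          · have g1 : A ∈ C2 := (Finset.mem_union.mp (hC A hA hA3)).resolve_left hA1
            have g2 : B ∈ C2 := (Finset.mem_union.mp (hC B hB hB3)).resolve_left hB1
            exact absurd (h2 A g1 B g2 hAB) hnd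
      · simp only [if_pos hA3, if_neg hB3]
        exact hmix A hA B hB hA3 hB3 hmeet
    · by_cases hB3 : 3 ≤ B.card
      · simp only [if_neg hA3, if_pos hB3]
        exact (hmix B hB A hA hB3 hA3 (by rw [Finset.inter_comm]; exact hmeet)).symm
      · simp only [if_neg hA3, if_neg hB3]
        obtain ⟨u, hu⟩ := hmeet
        obtain ⟨huA, huB⟩ := Finset.mem_inter.mp hu
        obtain ⟨v, hv1, hv2, hv3⟩ := hcol2 A hA hA3 u huA
        obtain ⟨w, hw1, hw2, hw3⟩ := hcol2 B hB hB3 u huB
        rw [hv3, hw3]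
        apply hcol.pr u v w hv2 hw2
        rintro rfl
        exact hAB (hv1.trans hw1.symm)

end H87B
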