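import Pool.Agent.Lib.H87B.C1

/-! # C3: critical edges -/

open Classical

namespace H87B

variable {V : Type*} [Fintype V] [DecidableEq V] {H : Finset (Finset V)}

/-- **C3a (S).** An edge meeting fewer than `D` others can be coloured last. -/
theorem extend_col {A : Finset V} (hA : A ∈ H) {D : ℕ} (h : HCol (H.erase A) D)
    (hlt : ((H.erase A).filter (fun B => (A ∩ B).Nonempty)).card < D) : HCol H D := by
  obtain ⟨c, hc1, hc2⟩ := h
  obtain ⟨F, hF⟩ : ∃ F, F = ((H.erase A).filter (fun B => (A ∩ B).Nonempty)).image c := ⟨_, rfl⟩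
  have hFc : F.card < D := by
    rw [hF]
    exact lt_of_le_of_lt Finset.card_image_le hlt
  obtain ⟨t, ht, htF⟩ : ∃ t, t < D ∧ t ∉ F := by
    by_contra hcon
    push Not at hcon
    have h1 : Finset.range D ⊆ F := fun t ht => hcon t (Finset.mem_range.mp ht)
    have h2 := Finset.card_le_card h1
    rw [Finset.card_range] at h2
    omega
  refine ⟨fun B => if B = A then t else c B, ?_, ?_⟩
  · intro B hB
    by_cases h1 : B = A
    · simp only [if_pos h1]; exact ht
    · simp only [if_neg h1]
      exact hc1 B (Finset.mem_erase.mpr ⟨h1, hB⟩)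
  · intro B hB C hC hne hmeet
    by_cases h1 : B = A
    · have h2 : C ≠ A := fun h => hne (h1.trans h.symm)
      simp only [if_pos h1, if_neg h2]
      intro hcon
      apply htF
      rw [hF, hcon]
      refine Finset.mem_image.mpr ⟨C, Finset.mem_filter.mpr
        ⟨Finset.mem_erase.mpr ⟨h2, hC⟩, ?_⟩, rfl⟩
      rw [← h1]
      exact hmeet
    · by_cases h2 : C = A
      · simp only [if_neg h1, if_pos h2]
        intro hcon
        apply htF
        rw [hF, ← hcon]
        refine Finset.mem_image.mpr ⟨B, Finset.mem_filter.mpr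
          ⟨Finset.mem_erase.mpr ⟨h1, hB⟩, ?_⟩, rfl⟩
        rw [Finset.inter_comm, ← h2]
        exact hmeet
      · simp only [if_neg h1, if_neg h2]
        exact hc2 B (Finset.mem_erase.mpr ⟨h1, hB⟩) C (Finset.mem_erase.mpr ⟨h2, hC⟩) hne hmeet

/-- **C3b (M).** Let `D <= 5` and let every edge of `H` meet at least `D` others. Then a large edge meets
at most one other large edge, and no vertex of two large edges lies in an edge of size two.
PROOF. Let `A` be large. The edges meeting `A` are counted by `∑ x ∈ A, o x`, `o x` = number of edges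
`≠ A` through `x`. `others_le`: `o x <= D - |A|`; `others_le'`: `o x <= D - |A| - 1` if another large edge
passes through `x`. Different large edges meeting `A` meet it in different points unless there are two
through the same point, which would need `|N[x]| >= 1 + 2 + 2 + 2 > 5` (`sum_le_nbd`). So
`D <= |A| (D - |A|) - (number of large edges meeting A)`, and `|A| (D - |A|) <= D` for `3 <= |A|`, `D <= 5`
except `D = 5`, `|A| = 3`, where it is `6`; for `D <= 4` it is less than `D`. -/
theorem crit_one (hL : Lin H) {D : ℕ} (hD5 : D ≤ 5) (hD : ∀ v, (nbd H v).card ≤ D)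
    (hcr : ∀ A ∈ H, D ≤ ((H.erase A).filter (fun B => (A ∩ B).Nonempty)).card) :
    ∀ A ∈ H, 3 ≤ A.card → ∀ B ∈ H, 3 ≤ B.card → ∀ B' ∈ H, 3 ≤ B'.card → B ≠ A → B' ≠ A →
      (A ∩ B).Nonempty → (A ∩ B').Nonempty → B = B' := by
  intro A hA hA3 B hB hB3 B' hB' hB'3 hBA hB'A hAB hAB'
  by_contra hne
  obtain ⟨x, hx⟩ := hAB
  obtain ⟨x', hx'⟩ := hAB'
  obtain ⟨hxA, hxB⟩ := Finset.mem_inter.mp hx
  obtain ⟨hx'A, hx'B⟩ := Finset.mem_inter.mp hx'
  -- the number of other edges through a vertex
  obtain ⟨o, ho⟩ : ∃ o : V → ℕ, o = fun v => ((H.erase A).filter (fun B => v ∈ B)).card := ⟨_, rfl⟩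
  have ho1 : ∀ v ∈ A, o v + A.card ≤ D := by
    intro v hv
    rw [ho]
    exact others_le hL hD hA hv
  have hox : o x + A.card + 1 ≤ D := by
    rw [ho]
    exact others_le' hL hD hA hxA hB hxB hB3 hBA.symm
  have hox' : o x' + A.card + 1 ≤ D := by
    rw [ho]
    exact others_le' hL hD hA hx'A hB' hx'B hB'3 hB'A.symm
  -- the two points are different
  have hxx : x ≠ x' := by
    rintro rfl
    have h1 := sum_le_nbd hL x {A, B, B'} (by
      intro C hC
      simp only [Finset.mem_insert, Finset.mem_singleton] at hC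
      rcases hC with rfl | rfl | rfl <;> assumption) (by
      intro C hC
      simp only [Finset.mem_insert, Finset.mem_singleton] at hC
      rcases hC with rfl | rfl | rfl <;> assumption)
    rw [Finset.sum_insert (by simp [hBA.symm, hB'A.symm]), Finset.sum_pair hne] at h1
    have h2 := hD x
    omega
  -- counting
  have hcount : ((H.erase A).filter (fun B => (A ∩ B).Nonempty)).card ≤ ∑ v ∈ A, o v := by
    have h1 : (H.erase A).filter (fun B => (A ∩ B).Nonempty) ⊆
        A.biUnion (fun v => (H.erase A).filter (fun B => v ∈ B)) := by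
      intro C hC
      obtain ⟨h2, z, hz⟩ := Finset.mem_filter.mp hC
      obtain ⟨h3, h4⟩ := Finset.mem_inter.mp hz
      exact Finset.mem_biUnion.mpr ⟨z, h3, Finset.mem_filter.mpr ⟨h2, h4⟩⟩
    rw [ho]
    exact (Finset.card_le_card h1).trans Finset.card_biUnion_le
  have h1 := hcr A hA
  have hx'm : x' ∈ A.erase x := Finset.mem_erase.mpr ⟨hxx.symm, hx'A⟩
  have hsum : ∑ v ∈ A, o v = ∑ v ∈ (A.erase x).erase x', o v + o x' + o x := by
    rw [← Finset.sum_erase_add A o hxA, ← Finset.sum_erase_add (A.erase x) o hx'm]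
  have hrest : ∑ v ∈ (A.erase x).erase x', o v ≤ (A.card - 2) * (D - A.card) := by
    have h2 : ∀ v ∈ (A.erase x).erase x', o v ≤ D - A.card := by
      intro v hv
      have := ho1 v (Finset.mem_of_mem_erase (Finset.mem_of_mem_erase hv))
      omega
    have h3 := Finset.sum_le_card_nsmul _ _ _ h2
    rw [Finset.card_erase_of_mem hx'm, Finset.card_erase_of_mem hxA, smul_eq_mul] at h3
    have h4 : A.card - 1 - 1 = A.card - 2 := by omega
    rw [h4] at h3
    exact h3
  have hA5 : A.card ≤ 4 := by omega
  rcases (by omega : A.card = 3 ∨ A.card = 4) with h5 | h5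
  · rw [h5] at hrest hox hox' ho1
    have : (3 - 2) * (D - 3) = D - 3 := by omega
    rw [this] at hrest
    omega
  · rw [h5] at hrest hox hox' ho1
    have : (4 - 2) * (D - 4) = 2 * (D - 4) := by omega
    rw [this] at hrest
    omega

/-- PROOF. `|N[w]| >= 1 + 2 + 2 + 1 > 5`. -/
theorem two_large (hL : Lin H) {D : ℕ} (hD5 : D ≤ 5) (hD : ∀ v, (nbd H v).card ≤ D) {w : V}
    {A B E : Finset V} (hA : A ∈ H) (hA3 : 3 ≤ A.card) (hw : w ∈ A) (hB : B ∈ H)
    (hB3 : 3 ≤ B.card) (hwB : w ∈ B) (hAB : A ≠ B) (hE : E ∈ H) (hE2 : E.card = 2) : w ∉ E := by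
  intro hwE
  have h1 := sum_le_nbd hL w {A, B, E} (by
    intro C hC
    simp only [Finset.mem_insert, Finset.mem_singleton] at hC
    rcases hC with rfl | rfl | rfl <;> assumption) (by
    intro C hC
    simp only [Finset.mem_insert, Finset.mem_singleton] at hC
    rcases hC with rfl | rfl | rfl <;> assumption)
  have hAE : A ≠ E := by
    rintro rfl
    omega
  have hBE : B ≠ E := by
    rintro rfl
    omega
  rw [Finset.sum_insert (by simp [hAB, hAE]), Finset.sum_pair hBE] at h1
  have h2 := hD w
  omega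

end H87B
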