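import Pool.Agent.Lib.H87B.C2
import Pool.Agent.Lib.H87B.C3

/-! # C4: Theorem B, D at most 5 -/

open Classical

namespace H87B

variable {V : Type*} [Fintype V] [DecidableEq V]

/-- **C4 (M).** THEOREM B. PROOF. Strong induction on `|H|`. If some edge meets fewer than `D` others:
`extend_col` and induction (`Lin` and the bound for `N[v]` pass to `H.erase A`). Otherwise let `C1` be a
subset of the large edges consisting of pairwise disjoint sets, with the greatest number of elements, and
`C2` the other large edges. If `B ≠ B'` in `C2` meet, then by maximality `B` meets some `A ∈ C1`, `A ≠ B'`,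
against `crit_one`. So `theoremA` applies; the set in `hW` is empty by `two_large`. -/
theorem theoremB (D : ℕ) (hD5 : D ≤ 5) : ∀ (n : ℕ) (H : Finset (Finset V)), H.card = n → Lin H →
    (∀ v, (nbd H v).card ≤ D) → HCol H D := by
  intro n
  induction n using Nat.strong_induction_on with
  | _ n ih =>
    intro H hn hL hD
    by_cases hcr : ∃ A ∈ H, ((H.erase A).filter (fun B => (A ∩ B).Nonempty)).card < D
    · obtain ⟨A, hA, hlt⟩ := hcr
      refine extend_col hA (ih (H.erase A).card ?_ (H.erase A) rfl ?_ ?_) hlt
      · rw [Finset.card_erase_of_mem hA, ← hn]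
        have := Finset.card_pos.mpr ⟨A, hA⟩
        omega
      · exact ⟨fun e he => hL.1 e (Finset.mem_of_mem_erase he), fun e he f hf =>
          hL.2 e (Finset.mem_of_mem_erase he) f (Finset.mem_of_mem_erase hf)⟩
      · intro v
        refine le_trans (Finset.card_le_card ?_) (hD v)
        intro x hx
        obtain ⟨B, hB, hxB⟩ := Finset.mem_biUnion.mp hx
        obtain ⟨h1, h2⟩ := Finset.mem_filter.mp hB
        exact Finset.mem_biUnion.mpr ⟨B, Finset.mem_filter.mpr ⟨Finset.mem_of_mem_erase h1, h2⟩, hxB⟩
    · push Not at hcr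
      obtain ⟨L, hLdef⟩ : ∃ L, L = H.filter (fun A => 3 ≤ A.card) := ⟨_, rfl⟩
      have hLmem : ∀ A, A ∈ L ↔ A ∈ H ∧ 3 ≤ A.card := by
        intro A
        rw [hLdef, Finset.mem_filter]
      obtain ⟨C1, hC1, hmax⟩ := Finset.exists_max_image
        (L.powerset.filter (fun C => ∀ A ∈ C, ∀ B ∈ C, A ≠ B → Disjoint A B))
        (fun C => C.card) ⟨∅, Finset.mem_filter.mpr ⟨Finset.mem_powerset.mpr
          (Finset.empty_subset _), fun A hA => absurd hA (Finset.notMem_empty _)⟩⟩
      obtain ⟨hC1L, hC1d⟩ := Finset.mem_filter.mp hC1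
      have hC1L' := Finset.mem_powerset.mp hC1L
      have hone := crit_one hL hD5 hD hcr
      have hmeet : ∀ B ∈ L \ C1, ∃ A ∈ C1, (B ∩ A).Nonempty := by
        intro B hB
        by_contra hcon
        push Not at hcon
        obtain ⟨hBL, hBC⟩ := Finset.mem_sdiff.mp hB
        have hdis : ∀ A ∈ C1, Disjoint B A := by
          intro A hA
          rw [Finset.disjoint_iff_inter_eq_empty]
          exact hcon A hA
        have h1 := hmax (insert B C1) (Finset.mem_filter.mpr ⟨Finset.mem_powerset.mpr
          (Finset.insert_subset hBL hC1L'), by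
            intro A hA A' hA' hne
            rcases Finset.mem_insert.mp hA with hA1 | hA1
            · rcases Finset.mem_insert.mp hA' with hA2 | hA2
              · exact absurd (hA1.trans hA2.symm) hne
              · rw [hA1]
                exact hdis A' hA2
            · rcases Finset.mem_insert.mp hA' with hA2 | hA2
              · rw [hA2]
                exact (hdis A hA1).symm
              · exact hC1d A hA1 A' hA2 hne⟩)
        rw [Finset.card_insert_of_notMem hBC] at h1
        omega
      refine theoremA hL D hD C1 (L \ C1) ?_ hC1d ?_ ?_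
      · intro A hA hA3
        by_cases h1 : A ∈ C1
        · exact Finset.mem_union_left _ h1
        · exact Finset.mem_union_right _ (Finset.mem_sdiff.mpr ⟨(hLmem A).mpr ⟨hA, hA3⟩, h1⟩)
      · intro B hB B' hB' hne
        rw [Finset.disjoint_iff_inter_eq_empty]
        by_contra hcon
        have hBB' : (B ∩ B').Nonempty := Finset.nonempty_iff_ne_empty.mpr hcon
        obtain ⟨A, hA, hBA⟩ := hmeet B hB
        obtain ⟨hBL, hBC⟩ := Finset.mem_sdiff.mp hB
        obtain ⟨hB'L, hB'C⟩ := Finset.mem_sdiff.mp hB'
        have hAL := (hLmem A).mp (hC1L' hA)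
        have hBL' := (hLmem B).mp hBL
        have hB'L' := (hLmem B').mp hB'L
        have hAB : A ≠ B := by
          rintro rfl
          exact hBC hA
        have h1 := hone B hBL'.1 hBL'.2 A hAL.1 hAL.2 B' hB'L'.1 hB'L'.2 hAB hne.symm hBA hBB'
        rw [h1] at hA
        exact hB'C hA
      · intro x A hA hA3
        have h0 : (Finset.univ.filter (fun w => (gr H).Adj x w ∧
            ∃ B ∈ H, ∃ B' ∈ H, B ≠ B' ∧ 3 ≤ B.card ∧ 3 ≤ B'.card ∧ w ∈ B ∧ w ∈ B')) = ∅ := by
          rw [Finset.filter_eq_empty_iff]
          rintro w _ ⟨hadj, B, hB, B', hB', hne, hB3, hB'3, hwB, hwB'⟩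
          exact two_large hL hD5 hD hB hB3 hwB hB' hB'3 hwB' hne hadj.2
            (Finset.card_pair hadj.1) (by simp)
        rw [h0, Finset.card_empty]
        omega

end H87B
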