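import Mathlib

/-!
# H87B: the Berge-Fueredi conjecture when the large edges form two matchings, and for D <= 5

Definitions. See PROOF.md.
-/

open Classical

namespace H87B

variable {V : Type*} [Fintype V] [DecidableEq V]

/-! ## edge colourings of graphs -/

/-- the degree -/
noncomputable def dg (G : SimpleGraph V) (u : V) : ℕ :=
  (Finset.univ.filter (fun w => G.Adj u w)).card

/-- `c` is a proper edge colouring of `G` with colours in `S` -/
structure IsCol (G : SimpleGraph V) (S : Finset ℕ) (c : V → V → ℕ) : Prop where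
  sy : ∀ u v, G.Adj u v → c u v = c v u
  mem : ∀ u v, G.Adj u v → c u v ∈ S
  pr : ∀ u v w, G.Adj u v → G.Adj u w → v ≠ w → c u v ≠ c u w

/-- `G` is edge colourable with colours in `S` -/
def ECol (G : SimpleGraph V) (S : Finset ℕ) : Prop := ∃ c : V → V → ℕ, IsCol G S c

/-- `G` without the edges at `v` -/
def del (G : SimpleGraph V) (v : V) : SimpleGraph V where
  Adj x y := G.Adj x y ∧ x ≠ v ∧ y ≠ v
  symm := ⟨fun _ _ h => ⟨h.1.symm, h.2.2, h.2.1⟩⟩
  loopless := ⟨fun _ h => G.loopless.irrefl _ h.1⟩

/-- the colours of `S` missing at `u` -/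
noncomputable def Ms (G : SimpleGraph V) (S : Finset ℕ) (c : V → V → ℕ) (u : V) : Finset ℕ :=
  S.filter (fun i => ∀ w, G.Adj u w → c u w ≠ i)

/-- the colouring with the colours `i`, `j` exchanged at the vertices of `T` -/
noncomputable def kswap (c : V → V → ℕ) (i j : ℕ) (T : Finset V) : V → V → ℕ :=
  fun x y => if x ∈ T then Equiv.swap i j (c x y) else c x y

/-- the graph of the edges coloured `i` or `j` -/
def twoCol (G : SimpleGraph V) (c : V → V → ℕ) (i j : ℕ) : SimpleGraph V where
  Adj x y := G.Adj x y ∧ (c x y = i ∨ c x y = j) ∧ (c y x = i ∨ c y x = j)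
  symm := ⟨fun _ _ h => ⟨h.1.symm, h.2.2, h.2.1⟩⟩
  loopless := ⟨fun _ h => G.loopless.irrefl _ h.1⟩

/-- the component of `x` -/
noncomputable def cmp (R : SimpleGraph V) (x : V) : Finset V :=
  Finset.univ.filter (fun y => R.Reachable x y)

/-- the number of `u` in `N` with `i` in `P u` -/
def xc (N : Finset V) (P : V → Finset ℕ) (i : ℕ) : ℕ := (N.filter (fun u => i ∈ P u)).card

/-! ## pairs of matchings -/

/-- a pair of disjoint matchings of `G`, one for each colour `i : Bool`, given by involutions `m i`
(`m i x = x` if `x` is not covered by the colour `i`); the colour `i` is not used at the vertices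
`x` with `Fb i x`. -/
structure Val (G : SimpleGraph V) (Fb : Bool → V → Prop) (m : Bool → V → V) : Prop where
  inv : ∀ i x, m i (m i x) = x
  adj : ∀ i x, m i x ≠ x → G.Adj x (m i x)
  fb : ∀ i x, m i x ≠ x → ¬ Fb i x
  disj : ∀ x, m true x = m false x → m true x = x

/-- the number of colours covering `x` -/
def dF (m : Bool → V → V) (x : V) : ℕ :=
  (if m true x ≠ x then 1 else 0) + (if m false x ≠ x then 1 else 0)

/-- `x` is clean: no colour is forbidden -/
def Cl (Fb : Bool → V → Prop) (x : V) : Prop := ∀ i, ¬ Fb i x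

/-- `G` without the edges of the two matchings -/
def rest (G : SimpleGraph V) (m : Bool → V → V) : SimpleGraph V where
  Adj x y := G.Adj x y ∧ ∀ i, m i x ≠ y ∧ m i y ≠ x
  symm := ⟨fun _ _ h => ⟨h.1.symm, fun i => ⟨(h.2 i).2, (h.2 i).1⟩⟩⟩
  loopless := ⟨fun _ h => G.loopless.irrefl _ h.1⟩

/-- add the edge `u v` to the matching of colour `i` -/
def add (m : Bool → V → V) (i : Bool) (u v : V) : Bool → V → V :=
  fun t x => if t = i then (if x = u then v else if x = v then u else m t x) else m t x

/-- remove the edge at `p` from the matching of colour `i` -/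
def rem (m : Bool → V → V) (i : Bool) (p : V) : Bool → V → V :=
  fun t x => if t = i ∧ (x = p ∨ x = m i p) then x else m t x

/-- exchange the two colours at the vertices of `T` -/
def swp (m : Bool → V → V) (T : Finset V) : Bool → V → V :=
  fun t x => if x ∈ T then m (!t) x else m t x

/-- the number of pairs (clean vertex, colour covering it) -/
noncomputable def Phi (Fb : Bool → V → Prop) (m : Bool → V → V) : ℕ :=
  ∑ x ∈ Finset.univ.filter (fun x => Cl Fb x), dF m x

/-- the number of vertices of `X` covered by at least one colour -/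
def cnt (X : Finset V) (m : Bool → V → V) : ℕ := (X.filter (fun x => 1 ≤ dF m x)).card

/-- an alternating walk of length `n` from `x` reaches an improvement -/
inductive Bad (G : SimpleGraph V) (Fb : Bool → V → Prop) (X : Finset V) (m : Bool → V → V) :
    ℕ → V → Prop
  | a (x y : V) (i : Bool) : G.Adj x y → ¬ Fb i y → m i y = y → Bad G Fb X m 0 x
  | b (x y : V) (i : Bool) : G.Adj x y → m i y ≠ y → (m i y ∉ X ∨ 2 ≤ dF m (m i y)) →
      Bad G Fb X m 0 x
  | s (n : ℕ) (x y : V) (i : Bool) : G.Adj x y → m i y ≠ y → Bad G Fb X m n (m i y) →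
      Bad G Fb X m (n + 1) x

/-! ## hypergraphs -/

/-- A linear hypergraph (given by its finite set of edges): every edge has at least two
vertices and any two distinct edges share at most one vertex. -/
def Lin (H : Finset (Finset V)) : Prop :=
  (∀ e ∈ H, 2 ≤ e.card) ∧ ∀ e ∈ H, ∀ f ∈ H, e ≠ f → (e ∩ f).card ≤ 1

/-- `N[v]`, the union of the edges containing `v`. -/
def nbd (H : Finset (Finset V)) (v : V) : Finset V := (H.filter (fun e => v ∈ e)).biUnion id

/-- the graph of the edges of size two -/
def gr (H : Finset (Finset V)) : SimpleGraph V where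
  Adj x y := x ≠ y ∧ ({x, y} : Finset V) ∈ H
  symm := ⟨fun x y h => ⟨h.1.symm, by rw [Finset.pair_comm]; exact h.2⟩⟩
  loopless := ⟨fun _ h => h.1 rfl⟩

/-- `H` can be properly coloured with `t` colours -/
def HCol (H : Finset (Finset V)) (t : ℕ) : Prop :=
  ∃ c : Finset V → ℕ, (∀ A ∈ H, c A < t) ∧ ∀ A ∈ H, ∀ B ∈ H, A ≠ B → (A ∩ B).Nonempty → c A ≠ c B

end H87B
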